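import Mathlib

set_option autoImplicit false

namespace Pool.Agent.BertramR2

/-- the number of conjugacy classes -/
noncomputable def cc (G : Type) [Group G] : ℕ := Nat.card (ConjClasses G)

/-- the number of prime factors counted with multiplicity -/
def Om (n : ℕ) : ℕ := n.primeFactorsList.length

/-- the section `M / N` has order the square of an odd prime; or order `4`, and `G / N` has not
order `3 * 2 ^ j`; or it contains at least `Om |M / N|` elements different from `1` that are
pairwise not conjugate in `G / N` -/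
def Sec {G : Type} [Group G] (N M : Subgroup G) : Prop :=
  (∃ p : ℕ, p.Prime ∧ p ≠ 2 ∧ N.relIndex M = p ^ 2) ∨
  (N.relIndex M = 4 ∧ ∀ j : ℕ, N.index ≠ 3 * 2 ^ j) ∨
  (∃ E : Finset G, (∀ e ∈ E, e ∈ M ∧ e ∉ N) ∧
    (∀ e ∈ E, ∀ e' ∈ E, e ≠ e' → ∀ g : G, (g * e * g⁻¹)⁻¹ * e' ∉ N) ∧
    Om (N.relIndex M) ≤ E.card)

/-- condition (*): every chief factor of `G` satisfies `Sec` -/
def Star (G : Type) [Group G] : Prop :=
  ∀ N M : Subgroup G, N.Normal → M.Normal → N < M →
    (∀ K : Subgroup G, K.Normal → N ≤ K → K ≤ M → K = N ∨ K = M) → Sec N M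

theorem Om_mul {m n : ℕ} (hm : m ≠ 0) (hn : n ≠ 0) : Om (m * n) = Om m + Om n := by
  have := ArithmeticFunction.cardFactors_mul hm hn
  simpa [ArithmeticFunction.cardFactors_apply, Om] using this

theorem Om_one : Om 1 = 0 := by simp [Om]

theorem Om_prime {p : ℕ} (hp : p.Prime) : Om p = 1 := by
  simp [Om, Nat.primeFactorsList_prime hp]

theorem Om_sq {p : ℕ} (hp : p.Prime) : Om (p ^ 2) = 2 := by
  rw [pow_two, Om_mul hp.ne_zero hp.ne_zero, Om_prime hp]

theorem Star.of_surj {G H : Type} [Group G] [Group H] (f : G →* H)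
    (hf : Function.Surjective f) (hG : Star G) : Star H := by
  classical
  intro N M hN hM hlt hmin
  have h1 : (N.comap f).relIndex (M.comap f) = N.relIndex M := by
    rw [Subgroup.relIndex_comap, Subgroup.map_comap_eq_self_of_surjective hf]
  have h2 := hG (N.comap f) (M.comap f) (hN.comap f) (hM.comap f)
    ((Subgroup.comap_lt_comap_of_surjective hf).2 hlt) ?_
  · unfold Sec at h2 ⊢
    rw [h1, Subgroup.index_comap_of_surjective N hf] at h2
    rcases h2 with h2 | h2 | ⟨E, hE1, hE2, hE3⟩
    · exact Or.inl h2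
    · exact Or.inr (Or.inl h2)
    · refine Or.inr (Or.inr ⟨E.image f, ?_, ?_, ?_⟩)
      · intro e' he'
        obtain ⟨e, he, rfl⟩ := Finset.mem_image.1 he'
        exact hE1 e he
      · intro e1 he1 e2 he2 hne h
        obtain ⟨a, ha, rfl⟩ := Finset.mem_image.1 he1
        obtain ⟨b, hb, rfl⟩ := Finset.mem_image.1 he2
        obtain ⟨g, rfl⟩ := hf h
        intro hmem
        apply hE2 a ha b hb (fun hab => hne (by rw [hab])) g
        rw [Subgroup.mem_comap]
        simpa using hmem
      · rw [Finset.card_image_of_injOn]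
        · exact hE3
        · intro a ha b hb hab
          by_contra hne
          apply hE2 a ha b hb hne 1
          rw [Subgroup.mem_comap]
          have hab' : f a = f b := hab
          simp [hab']
  · intro K hK hNK hKM
    have hker : f.ker ≤ K := by
      refine le_trans ?_ hNK
      intro x hx
      rw [Subgroup.mem_comap, (MonoidHom.mem_ker).1 hx]
      exact N.one_mem
    have hKc : (K.map f).comap f = K := by
      rw [Subgroup.comap_map_eq, sup_eq_left.2 hker]
    have h3 := hmin (K.map f) (hK.map f hf) ?_ ?_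
    · rcases h3 with h3 | h3
      · left
        rw [← hKc, h3]
      · right
        rw [← hKc, h3]
    · rw [← Subgroup.comap_le_comap_of_surjective hf, hKc]
      exact hNK
    · rw [← Subgroup.comap_le_comap_of_surjective hf, hKc]
      exact hKM

theorem Star.quot {G : Type} [Group G] (hG : Star G) (N : Subgroup G) [N.Normal] :
    Star (G ⧸ N) :=
  hG.of_surj (QuotientGroup.mk' N) (QuotientGroup.mk'_surjective N)

/-- for a minimal normal subgroup -/
theorem Star.min {G : Type} [Group G] (hG : Star G) (M : Subgroup G) [hM : M.Normal]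
    (hbot : M ≠ ⊥) (hmin : ∀ K : Subgroup G, K.Normal → K ≤ M → K = ⊥ ∨ K = M) :
    (∃ p : ℕ, p.Prime ∧ p ≠ 2 ∧ Nat.card M = p ^ 2) ∨
    (Nat.card M = 4 ∧ ∀ j : ℕ, Nat.card G ≠ 3 * 2 ^ j) ∨
    (∃ E : Finset G, (∀ e ∈ E, e ∈ M ∧ e ≠ 1) ∧
      (∀ e ∈ E, ∀ e' ∈ E, IsConj e e' → e = e') ∧ Om (Nat.card M) ≤ E.card) := by
  have h := hG ⊥ M inferInstance hM (bot_lt_iff_ne_bot.2 hbot)
    (fun K hK _ hKM => hmin K hK hKM)
  unfold Sec at h
  rw [Subgroup.relIndex_bot_left, Subgroup.index_bot] at h
  rcases h with h | h | ⟨E, hE1, hE2, hE3⟩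
  · exact Or.inl h
  · exact Or.inr (Or.inl h)
  · refine Or.inr (Or.inr ⟨E, ?_, ?_, hE3⟩)
    · intro e he
      exact ⟨(hE1 e he).1, fun h => (hE1 e he).2 (Subgroup.mem_bot.2 h)⟩
    · intro e he e' he' hc
      by_contra hne
      obtain ⟨g, hg⟩ := isConj_iff.1 hc
      apply hE2 e he e' he' hne g
      rw [Subgroup.mem_bot, hg]
      group

theorem card_add_le {α β : Type} [Finite α] (π : α → β) (E : Finset α)
    (h : ∀ b, ∃ a, a ∉ E ∧ π a = b) : Nat.card β + E.card ≤ Nat.card α := by
  classical
  have h1 : Nat.card β ≤ Nat.card {a : α // a ∉ E} := by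
    apply Nat.card_le_card_of_surjective (fun a : {a : α // a ∉ E} => π a.1)
    intro b
    obtain ⟨a, ha, hb⟩ := h b
    exact ⟨⟨a, ha⟩, hb⟩
  have := Fintype.ofFinite α
  have h2 : Nat.card {a : α // a ∉ E} + E.card = Nat.card α := by
    rw [Nat.card_eq_fintype_card, Nat.card_eq_fintype_card]
    have h3 := Fintype.card_subtype_compl (fun a : α => a ∈ E)
    have h4 : Fintype.card {a : α // a ∈ E} = E.card := Fintype.card_coe E
    have h5 : Fintype.card {a : α // a ∈ E} ≤ Fintype.card α := Fintype.card_subtype_le _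
    rw [h3]
    omega
  omega

theorem cc_add_le {G : Type} [Group G] [Finite G] (V : Subgroup G) [V.Normal]
    (E : Finset G) (alt : G → G) (hinj : ∀ e ∈ E, ∀ e' ∈ E, IsConj e e' → e = e')
    (halt : ∀ e ∈ E, (alt e)⁻¹ * e ∈ V ∧ ∀ e' ∈ E, ¬ IsConj (alt e) e') :
    cc (G ⧸ V) + E.card ≤ cc G := by
  classical
  have hcard : (E.image (ConjClasses.mk : G → ConjClasses G)).card = E.card := by
    apply Finset.card_image_of_injOn
    intro e he e' he' hee
    exact hinj e he e' he' (ConjClasses.mk_eq_mk_iff_isConj.1 hee)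
  have h := card_add_le (ConjClasses.map (QuotientGroup.mk' V))
    (E.image (ConjClasses.mk : G → ConjClasses G)) ?_
  · rw [hcard] at h
    exact h
  · intro b
    obtain ⟨q, rfl⟩ := ConjClasses.exists_rep b
    obtain ⟨g, rfl⟩ := QuotientGroup.mk'_surjective V q
    by_cases hg : ConjClasses.mk g ∈ E.image (ConjClasses.mk : G → ConjClasses G)
    · obtain ⟨e, he, heq⟩ := Finset.mem_image.1 hg
      refine ⟨ConjClasses.mk (alt e), ?_, ?_⟩
      · intro hmem
        obtain ⟨e', he', heq'⟩ := Finset.mem_image.1 hmem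
        exact (halt e he).2 e' he' (ConjClasses.mk_eq_mk_iff_isConj.1 heq'.symm)
      · have h1 : (QuotientGroup.mk' V) (alt e) = (QuotientGroup.mk' V) e :=
          QuotientGroup.eq.2 (halt e he).1
        have h2 : IsConj e g := ConjClasses.mk_eq_mk_iff_isConj.1 heq
        show ConjClasses.mk ((QuotientGroup.mk' V) (alt e)) = _
        rw [h1]
        exact ConjClasses.mk_eq_mk_iff_isConj.2 (MonoidHom.map_isConj _ h2)
    · exact ⟨ConjClasses.mk g, hg, rfl⟩

theorem cc_ge_one {G : Type} [Group G] [Finite G] (V : Subgroup G) [V.Normal] {v : G}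
    (hv : v ∈ V) (hv1 : v ≠ 1) : cc (G ⧸ V) + 1 ≤ cc G := by
  have h := cc_add_le V {v} (fun _ => 1) ?_ ?_
  · simpa using h
  · intro e he e' he' _
    rw [Finset.mem_singleton.1 he, Finset.mem_singleton.1 he']
  · intro e he
    rw [Finset.mem_singleton.1 he]
    refine ⟨by simpa using hv, ?_⟩
    intro e' he' hc
    rw [Finset.mem_singleton.1 he', isConj_one_right] at hc
    exact hv1 hc

theorem normal_isConj {G : Type} [Group G] {V : Subgroup G} (hV : V.Normal) {a b : G}
    (h : IsConj a b) (ha : a ∈ V) : b ∈ V := by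
  obtain ⟨c, rfl⟩ := isConj_iff.1 h
  exact hV.conj_mem a ha c

/-- (E2) -/
theorem camina {G : Type} [Group G] [Finite G] (V : Subgroup G) [hV : V.Normal]
    (hcc : cc G ≤ cc (G ⧸ V) + 1) :
    (∀ v ∈ V, ∀ w ∈ V, v ≠ 1 → w ≠ 1 → IsConj v w) ∧
    (V ≠ ⊥ → ∀ x, x ∉ V → ∀ v ∈ V, IsConj x (x * v)) := by
  classical
  constructor
  · intro v hv w hw hv1 hw1
    by_contra hcon
    have hne : v ≠ w := fun h => hcon (h ▸ IsConj.refl v)
    have h := cc_add_le V {v, w} (fun _ => 1) ?_ ?_
    · rw [Finset.card_pair hne] at h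
      omega
    · intro e he e' he' hc
      rcases Finset.mem_insert.1 he with rfl | he
      · rcases Finset.mem_insert.1 he' with rfl | he'
        · rfl
        · rw [Finset.mem_singleton.1 he'] at hc
          exact absurd hc hcon
      · rw [Finset.mem_singleton.1 he] at hc ⊢
        rcases Finset.mem_insert.1 he' with rfl | he'
        · exact absurd hc.symm hcon
        · rw [Finset.mem_singleton.1 he']
    · intro e he
      have heV : e ∈ V ∧ e ≠ 1 := by
        rcases Finset.mem_insert.1 he with rfl | he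
        · exact ⟨hv, hv1⟩
        · rw [Finset.mem_singleton.1 he]
          exact ⟨hw, hw1⟩
      refine ⟨by simpa using heV.1, ?_⟩
      intro e' he' hc
      rw [isConj_one_right] at hc
      rcases Finset.mem_insert.1 he' with rfl | he'
      · exact hv1 hc
      · rw [Finset.mem_singleton.1 he'] at hc
        exact hw1 hc
  · intro hbot x hx v hv
    by_contra hcon
    obtain ⟨m', hm'⟩ := Subgroup.ne_bot_iff_exists_ne_one.1 hbot
    obtain ⟨m, hm⟩ := m'
    have hm1 : m ≠ 1 := fun h => hm' (Subtype.ext h)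
    have hxv : x * v ∉ V := fun h => hx ((Subgroup.mul_mem_cancel_right V hv).1 h)
    have hne : m ≠ x * v := fun h => hxv (h ▸ hm)
    have h := cc_add_le V {m, x * v} (fun e => if e = m then 1 else x) ?_ ?_
    · rw [Finset.card_pair hne] at h
      omega
    · intro e he e' he' hc
      rcases Finset.mem_insert.1 he with rfl | he
      · rcases Finset.mem_insert.1 he' with rfl | he'
        · rfl
        · rw [Finset.mem_singleton.1 he'] at hc
          exact absurd (normal_isConj hV hc hm) hxv
      · rw [Finset.mem_singleton.1 he] at hc ⊢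
        rcases Finset.mem_insert.1 he' with rfl | he'
        · exact absurd (normal_isConj hV hc.symm hm) hxv
        · rw [Finset.mem_singleton.1 he']
    · intro e he
      rcases Finset.mem_insert.1 he with rfl | he
      · refine ⟨by simpa using hm, ?_⟩
        intro e' he' hc
        simp only [if_true] at hc
        rw [isConj_one_right] at hc
        rcases Finset.mem_insert.1 he' with rfl | he'
        · exact hm1 hc
        · rw [Finset.mem_singleton.1 he'] at hc
          exact hxv (hc ▸ V.one_mem)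
      · rw [Finset.mem_singleton.1 he]
        simp only [if_neg hne.symm]
        refine ⟨by simpa using hv, ?_⟩
        intro e' he' hc
        rcases Finset.mem_insert.1 he' with rfl | he'
        · exact hx (normal_isConj hV hc.symm hm)
        · rw [Finset.mem_singleton.1 he'] at hc
          exact hcon hc

/-- two extra classes: over `1` and over `y` -/
theorem cc_ge_two {G : Type} [Group G] [Finite G] (V : Subgroup G) [V.Normal] {v y : G}
    (hv : v ∈ V) (hv1 : v ≠ 1) (hy : y ∉ V) (hyv : ¬ IsConj y (y * v)) :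
    cc (G ⧸ V) + 2 ≤ cc G := by
  by_contra hcon
  have h := (camina V (by omega)).2
    (fun h => hv1 (by rw [h] at hv; exact (Subgroup.mem_bot).1 hv)) y hy v hv
  exact hyv h

/-- three extra classes -/
theorem cc_ge_three {G : Type} [Group G] [Finite G] (V : Subgroup G) [hV : V.Normal]
    {v w u y : G} (hv : v ∈ V) (hw : w ∈ V) (hu : u ∈ V) (hv1 : v ≠ 1) (hw1 : w ≠ 1)
    (hvw : ¬ IsConj v w) (hy : y ∉ V) (hyv : ¬ IsConj y (y * u)) :
    cc (G ⧸ V) + 3 ≤ cc G := by
  classical
  have hxv : y * u ∉ V := fun h => hy ((Subgroup.mul_mem_cancel_right V hu).1 h)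
  have hne : v ≠ w := fun h => hvw (h ▸ IsConj.refl v)
  have hne1 : v ≠ y * u := fun h => hxv (h ▸ hv)
  have hne2 : w ≠ y * u := fun h => hxv (h ▸ hw)
  have hmem : ∀ e, e ∈ ({v, w, y * u} : Finset G) → e = v ∨ e = w ∨ e = y * u := by
    intro e he
    simpa using he
  have h := cc_add_le V {v, w, y * u} (fun e => if e ∈ V then 1 else y) ?_ ?_
  · have hc3 : ({v, w, y * u} : Finset G).card = 3 := by
      rw [Finset.card_eq_three]
      exact ⟨v, w, y * u, hne, hne1, hne2, rfl⟩
    rw [hc3] at h
    exact h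
  · intro e he e' he' hc
    rcases hmem e he with rfl | rfl | rfl <;> rcases hmem e' he' with rfl | rfl | rfl
    · rfl
    · exact absurd hc hvw
    · exact absurd (normal_isConj hV hc hv) hxv
    · exact absurd hc.symm hvw
    · rfl
    · exact absurd (normal_isConj hV hc hw) hxv
    · exact absurd (normal_isConj hV hc.symm hv) hxv
    · exact absurd (normal_isConj hV hc.symm hw) hxv
    · rfl
  · intro e he
    have hno1 : ∀ e', e' ∈ ({v, w, y * u} : Finset G) → ¬ IsConj 1 e' := by
      intro e' he' hc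
      rw [isConj_one_right] at hc
      rcases hmem e' he' with rfl | rfl | rfl
      · exact hv1 hc
      · exact hw1 hc
      · exact hxv (hc ▸ V.one_mem)
    by_cases heV : e ∈ V
    · simp only [if_pos heV]
      exact ⟨by simpa using heV, hno1⟩
    · simp only [if_neg heV]
      have he2 : e = y * u := by
        rcases hmem e he with rfl | rfl | rfl
        · exact absurd hv heV
        · exact absurd hw heV
        · rfl
      refine ⟨by rw [he2]; simpa using hu, ?_⟩
      intro e' he' hc
      rcases hmem e' he' with rfl | rfl | rfl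
      · exact hy (normal_isConj hV hc.symm hv)
      · exact hy (normal_isConj hV hc.symm hw)
      · exact hyv hc

theorem not_conj_mul {G : Type} [Group G] {p r k : ℕ} (hp : p.Prime) (hr : r.Prime)
    (hne : r ≠ p) {y v : G} (hy : orderOf y = r) (hv1 : v ≠ 1) (hv : v ^ p ^ k = 1)
    (hcomm : y * v = v * y) : ¬ IsConj y (y * v) := by
  intro hc
  have h1 : (y * v) ^ r = 1 := by
    have h2 := hc.pow r
    rw [← hy, pow_orderOf_eq_one, isConj_one_right] at h2
    rw [← hy]
    exact h2
  have h3 : (y * v) ^ r = v ^ r := by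
    have h4 : Commute y v := hcomm
    rw [h4.mul_pow, ← hy, pow_orderOf_eq_one, one_mul]
  rw [h3] at h1
  have h5 : orderOf v ∣ r := orderOf_dvd_of_pow_eq_one h1
  have h6 : orderOf v ∣ p ^ k := orderOf_dvd_of_pow_eq_one hv
  have h7 : Nat.Coprime r (p ^ k) := Nat.Coprime.pow_right k ((Nat.coprime_primes hr hp).2 hne)
  have h8 : orderOf v ∣ 1 := by
    rw [← h7]
    exact Nat.dvd_gcd h5 h6
  exact hv1 (orderOf_eq_one_iff.1 (Nat.dvd_one.1 h8))

/-- an involution on a finite set of odd size has a fixed point -/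
theorem exists_fixed {α : Type} [Finite α] (hodd : Odd (Nat.card α)) (τ : α → α)
    (hτ : ∀ a, τ (τ a) = a) : ∃ a, τ a = a := by
  classical
  have := Fintype.ofFinite α
  have : Fact (Nat.Prime 2) := ⟨Nat.prime_two⟩
  have h1 := Equiv.Perm.card_fixedPoints_modEq (α := α) (f := (τ : Function.End α))
    (p := 2) (n := 1) (by funext a; exact hτ a)
  by_contra hcon
  push Not at hcon
  have h2 : Fintype.card (Function.fixedPoints (τ : Function.End α)) = 0 := by
    rw [Fintype.card_eq_zero_iff]
    exact ⟨fun a => hcon a.1 a.2⟩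
  rw [h2] at h1
  rw [Nat.card_eq_fintype_card] at hodd
  have h3 : Fintype.card α % 2 = 0 := h1
  have h4 := Nat.odd_iff.1 hodd
  omega

end Pool.Agent.BertramR2
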