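import Pool.Agent.BertramR2.ChainB

set_option autoImplicit false

namespace Pool.Agent.BertramR2

open Subgroup

theorem cent_le_comap {G : Type} [Group G] (M : Subgroup G) [M.Normal] (x : G) :
    (centralizer {x} : Subgroup G) ≤
      (centralizer {(QuotientGroup.mk' M) x}).comap (QuotientGroup.mk' M) := by
  intro g hg
  rw [mem_centralizer_singleton_iff] at hg
  rw [Subgroup.mem_comap, mem_centralizer_singleton_iff, ← map_mul, hg, map_mul]

/-- in a failing layer the centralizer of an inverted element drops -/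
theorem drop {G : Type} [Group G] [Finite G] {p a : ℕ} (hp : p.Prime) (hp2 : p ≠ 2) (ha : a ≤ 1)
    (P M : Subgroup G) [hPn : P.Normal] [hMn : M.Normal] (hP : IsPGroup p P)
    (hcard : Nat.card M = p ^ 2) (hidx : P.index = (p ^ 2 - 1) * p ^ a)
    (hcen : ∀ m ∈ M, ∀ g ∈ P, g * m = m * g) (z : G) (hz : z * z = 1)
    (hinv : ∀ m ∈ M, z * m * z = m⁻¹) (x : G) (hx : x ∈ P) (hxz : z * x * z = x⁻¹)
    (hconj : ∀ m ∈ M, IsConj x (x * m)) :
    p * Nat.card (P ⊓ centralizer {z} ⊓ centralizer {x} : Subgroup G) ≤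
      Nat.card (P ⊓ centralizer {z} ⊓
        (centralizer {(QuotientGroup.mk' M) x}).comap (QuotientGroup.mk' M) : Subgroup G) := by
  have hzi : z⁻¹ = z := inv_eq_of_mul_eq_one_left hz
  set D : Subgroup G := (centralizer {(QuotientGroup.mk' M) x}).comap (QuotientGroup.mk' M)
    with hD
  have hmemD : ∀ g, g ∈ D ↔ x⁻¹ * (g * x * g⁻¹) ∈ M := by
    intro g
    rw [hD, Subgroup.mem_comap]
    exact mk_mem_cent
  have hle : (centralizer {x} : Subgroup G) ≤ D := cent_le_comap M x
  have h1 : (centralizer {x}).relIndex D = p ^ 2 := by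
    rw [← hcard]
    apply relIndex_eq_of_surj D M x
    · intro c hc
      exact (hmemD c).1 hc
    · intro m hm
      obtain ⟨c, hc⟩ := isConj_iff.1 (hconj m hm)
      refine ⟨c, ?_, hc⟩
      rw [hmemD, hc]
      simpa using hm
  have h2 := card_inf_mul (centralizer {x}) D
  rw [inf_eq_left.2 hle, h1] at h2
  have h3 := card_map_mul P D
  have h4 := card_map_mul P (centralizer {x})
  -- there is a bad element in `P`
  have h5 : ¬ P ⊓ D ≤ centralizer {x} := by
    intro hcon
    have h6 : P ⊓ D = P ⊓ centralizer {x} :=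
      le_antisymm (le_inf inf_le_left hcon) (inf_le_inf_left _ hle)
    rw [h6, ← h2, ← h4, mul_assoc] at h3
    have hpos : 0 < Nat.card (P ⊓ centralizer {x} : Subgroup G) := Nat.card_pos
    have h7 := Nat.eq_of_mul_eq_mul_left hpos h3
    have h8 : p ^ 2 ∣ Nat.card (D.map (QuotientGroup.mk' P)) := by
      rw [h7]
      exact dvd_mul_left _ _
    have h9 : Nat.card (D.map (QuotientGroup.mk' P)) ∣ Nat.card (G ⧸ P) :=
      Subgroup.card_subgroup_dvd_card _
    have h10 : Nat.card (G ⧸ P) = (p ^ 2 - 1) * p ^ a := by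
      rw [← hidx]
      rfl
    rw [h10] at h9
    exact not_sq_dvd hp ha (h8.trans h9)
  obtain ⟨g, hg, hgx⟩ := Set.not_subset.1 h5
  obtain ⟨hgP, hgD⟩ := Subgroup.mem_inf.1 hg
  have hgM := (hmemD g).1 hgD
  obtain ⟨m, hm⟩ : ∃ m, m = x⁻¹ * (g * x * g⁻¹) := ⟨_, rfl⟩
  rw [← hm] at hgM
  have hxm : g * x * g⁻¹ = x * m := by rw [hm]; group
  have hm1 : m ≠ 1 := by
    intro h
    apply hgx
    show g ∈ (centralizer {x} : Subgroup G)
    rw [mem_centralizer_singleton_iff]
    rw [h, mul_one] at hxm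
    calc g * x = g * x * g⁻¹ * g := by group
      _ = x * g := by rw [hxm]
  have hoddA : Odd (Nat.card (P ⊓ centralizer {x} : Subgroup G)) := by
    obtain ⟨k, hk⟩ := card_pow_dvd hp hP (inf_le_left : P ⊓ centralizer {x} ≤ P)
    rw [hk]
    exact (hp.odd_of_ne_two hp2).pow
  have hmx : x * m = m * x := hcen m hgM x hx
  obtain ⟨y, hy, hy2⟩ := fix_in_coset (P ⊓ centralizer {x}) hoddA z g hz (by
    intro y hy
    obtain ⟨hyP, hyx⟩ := Subgroup.mem_inf.1 hy
    rw [mem_centralizer_singleton_iff] at hyx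
    have e1 : (g * y) * x * (g * y)⁻¹ = x * m := by
      calc (g * y) * x * (g * y)⁻¹ = g * (y * x) * y⁻¹ * g⁻¹ := by group
        _ = g * (x * y) * y⁻¹ * g⁻¹ := by rw [hyx]
        _ = g * x * g⁻¹ := by group
        _ = x * m := hxm
    have e2 : (z * (g * y) * z) * x * (z * (g * y) * z)⁻¹ = x * m := by
      calc (z * (g * y) * z) * x * (z * (g * y) * z)⁻¹
          = z * (g * y) * (z * x * z⁻¹) * (g * y)⁻¹ * z⁻¹ := by group
        _ = z * (g * y) * (z * x * z) * (g * y)⁻¹ * z⁻¹ := by rw [hzi]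
        _ = z * (g * y) * x⁻¹ * (g * y)⁻¹ * z⁻¹ := by rw [hxz]
        _ = z * ((g * y) * x * (g * y)⁻¹)⁻¹ * z⁻¹ := by group
        _ = z * (m * x)⁻¹ * z⁻¹ := by rw [e1, hmx]
        _ = (z * x * z⁻¹)⁻¹ * (z * m * z⁻¹)⁻¹ := by group
        _ = (z * x * z)⁻¹ * (z * m * z)⁻¹ := by rw [hzi]
        _ = x * m := by rw [hxz, hinv m hgM, inv_inv, inv_inv]
    have e3 : z * (g * y) * z ∈ P := by
      have := hPn.conj_mem (g * y) (P.mul_mem hgP hyP) z
      rwa [hzi] at this
    refine Subgroup.mem_inf.2 ⟨P.mul_mem (P.inv_mem hgP) e3, ?_⟩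
    rw [mem_centralizer_singleton_iff]
    calc g⁻¹ * (z * (g * y) * z) * x
        = g⁻¹ * ((z * (g * y) * z) * x * (z * (g * y) * z)⁻¹) * (z * (g * y) * z) := by group
      _ = g⁻¹ * (g * x * g⁻¹) * (z * (g * y) * z) := by rw [e2, hxm]
      _ = x * (g⁻¹ * (z * (g * y) * z)) := by group)
  obtain ⟨hyP, hyx⟩ := Subgroup.mem_inf.1 hy
  rw [mem_centralizer_singleton_iff] at hyx
  have e1 : (g * y) * x * (g * y)⁻¹ = x * m := by
    calc (g * y) * x * (g * y)⁻¹ = g * (y * x) * y⁻¹ * g⁻¹ := by group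
      _ = g * (x * y) * y⁻¹ * g⁻¹ := by rw [hyx]
      _ = g * x * g⁻¹ := by group
      _ = x * m := hxm
  have hcT : g * y ∈ P ⊓ centralizer {z} ⊓ D := by
    refine Subgroup.mem_inf.2 ⟨Subgroup.mem_inf.2 ⟨P.mul_mem hgP hyP, ?_⟩, ?_⟩
    · rw [mem_centralizer_singleton_iff]
      calc g * y * z = z * (g * y) * z * z := by rw [hy2]
        _ = z * (g * y) * (z * z) := by group
        _ = z * (g * y) := by rw [hz, mul_one]
    · rw [hmemD, e1]
      simpa using hgM
  have hcS : g * y ∉ P ⊓ centralizer {z} ⊓ centralizer {x} := by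
    intro h
    have h6 := (Subgroup.mem_inf.1 h).2
    rw [mem_centralizer_singleton_iff] at h6
    rw [h6] at e1
    have h7 : x * (g * y) * (g * y)⁻¹ = x := by group
    rw [h7] at e1
    exact hm1 (mul_eq_left.1 e1.symm)
  apply card_lt_pgroup hp _ _ _ (inf_le_inf_left _ hle)
  · intro h
    exact hcS (h ▸ hcT)
  · exact hP.to_le (inf_le_left.trans inf_le_left)

theorem cc_quot_le {G : Type} [Group G] [Finite G] (V : Subgroup G) [V.Normal] :
    cc (G ⧸ V) ≤ cc G := by
  have h := cc_add_le V ∅ (fun e => e) (by simp) (by simp)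
  simpa using h

theorem chain_aux {p : ℕ} (hp : p.Prime) (hp2 : p ≠ 2) {a : ℕ} (ha : a ≤ 1) :
    ∀ n : ℕ, ∀ (Γ : Type) [Group Γ] [Finite Γ], Star Γ → ∀ (P : Subgroup Γ) [P.Normal],
      IsPGroup p P → Nat.card P = n → P.index = (p ^ 2 - 1) * p ^ a →
      ∀ z : Γ, z * z = 1 → z ≠ 1 → (∀ g : Γ, g * z * g⁻¹ * z ∈ P) →
      ∃ A B : ℕ, cc (Γ ⧸ P) + Om (Nat.card P) + A ≤ cc Γ + B ∧
        Nat.card (P ⊓ centralizer {z} : Subgroup Γ) ≤ p ^ A ∧
        (1 ≤ B → ∃ x ∈ P, x ≠ 1 ∧ z * x * z = x⁻¹ ∧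
          p ^ (B - 1) * Nat.card (P ⊓ centralizer {z} ⊓ centralizer {x} : Subgroup Γ) ≤
            Nat.card (P ⊓ centralizer {z} : Subgroup Γ)) := by
  intro n
  induction n using Nat.strong_induction_on with
  | _ n ih =>
  intro Γ _ _ hS P hPn hP hPc hidx z hz hz1 hzc
  have hzi : z⁻¹ = z := inv_eq_of_mul_eq_one_left hz
  by_cases hPb : P = ⊥
  · refine ⟨0, 0, ?_, ?_, ?_⟩
    · have h1 : Nat.card P = 1 := by rw [hPb, Subgroup.card_bot]
      rw [h1, Om_one]
      have := cc_quot_le P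
      omega
    · have h1 : Nat.card (P ⊓ centralizer {z} : Subgroup Γ) ≤ Nat.card P :=
        Subgroup.card_le_of_le inf_le_left
      have h2 : Nat.card P = 1 := by rw [hPb, Subgroup.card_bot]
      rw [pow_zero]
      omega
    · intro h
      omega
  obtain ⟨M, hMn, hMP, hMb, hmin⟩ := exists_min P hPb
  have hcen := central_of_min hp P M hP hMP hMb hmin
  obtain ⟨d, hd⟩ := card_pow_dvd hp hP hMP
  have hd0 : d ≠ 0 := by
    intro h0
    rw [h0, pow_zero, Subgroup.card_eq_one] at hd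
    exact hMb hd
  have hodd : Odd (Nat.card M) := by
    rw [hd]
    exact (hp.odd_of_ne_two hp2).pow
  have hsurj := QuotientGroup.mk'_surjective M
  have hzP : z ∉ P := by
    intro h
    have h1 : orderOf z = 2 := orderOf_eq_prime (by rw [pow_two, hz]) hz1
    have h2 : 2 ∣ Nat.card P := by
      rw [← h1]
      exact Subgroup.orderOf_dvd_natCard P h
    obtain ⟨k, hk⟩ := card_pow_dvd hp hP (le_refl P)
    rw [hk] at h2
    have h3 := (Nat.prime_two).dvd_of_dvd_pow h2
    have h4 := (Nat.prime_dvd_prime_iff_eq Nat.prime_two hp).1 h3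
    exact hp2 h4.symm
  have hP'n : (P.map (QuotientGroup.mk' M)).Normal := hPn.map _ hsurj
  have hP' : IsPGroup p (P.map (QuotientGroup.mk' M)) := hP.map _
  have hcP := card_map_mul M P
  rw [inf_eq_left.2 hMP] at hcP
  have hP'pos : 0 < Nat.card (P.map (QuotientGroup.mk' M)) := Nat.card_pos
  have hM1 : 1 < Nat.card M := by
    rw [hd]
    exact Nat.one_lt_pow hd0 hp.one_lt
  have hlt : Nat.card (P.map (QuotientGroup.mk' M)) < n := by
    rw [← hPc, ← hcP]
    calc Nat.card (P.map (QuotientGroup.mk' M)) = 1 * Nat.card (P.map (QuotientGroup.mk' M)) :=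
          (one_mul _).symm
      _ < Nat.card M * Nat.card (P.map (QuotientGroup.mk' M)) :=
          Nat.mul_lt_mul_of_pos_right hM1 hP'pos
  have hidx' : (P.map (QuotientGroup.mk' M)).index = (p ^ 2 - 1) * p ^ a := by
    rw [← hidx]
    apply Subgroup.index_map_eq P hsurj
    rw [QuotientGroup.ker_mk']
    exact hMP
  have hz' : (QuotientGroup.mk' M) z * (QuotientGroup.mk' M) z = 1 := by
    rw [← map_mul, hz, map_one]
  have hz1' : (QuotientGroup.mk' M) z ≠ 1 := by
    intro h
    exact hzP (hMP ((QuotientGroup.eq_one_iff z).1 h))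
  have hzc' : ∀ g' : Γ ⧸ M, g' * (QuotientGroup.mk' M) z * g'⁻¹ * (QuotientGroup.mk' M) z ∈
      P.map (QuotientGroup.mk' M) := by
    intro g'
    obtain ⟨g, rfl⟩ := hsurj g'
    rw [← map_inv, ← map_mul, ← map_mul, ← map_mul]
    exact ⟨_, hzc g, rfl⟩
  obtain ⟨A', B', h1', h2', h3'⟩ := ih _ hlt (Γ ⧸ M) (hS.quot M) (P.map (QuotientGroup.mk' M))
    hP' rfl hidx' ((QuotientGroup.mk' M) z) hz' hz1' hzc'
  rw [cc_congr (QuotientGroup.quotientQuotientEquivQuotient M P hMP)] at h1'
  rw [← map_cent M P hMP hodd z hz] at h2' h3'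
  have hCC := card_map_mul M (P ⊓ centralizer {z})
  have hOm : Om (Nat.card P) = d + Om (Nat.card (P.map (QuotientGroup.mk' M))) := by
    rw [← hcP, Om_mul (by omega) (by omega), hd, Om_pow hp]
  have hlift : 1 ≤ B' → ∃ x ∈ P, x ∉ M ∧ z * x * z = x⁻¹ ∧
      p ^ (B' - 1) * Nat.card (P ⊓ centralizer {z} ⊓
        (centralizer {(QuotientGroup.mk' M) x}).comap (QuotientGroup.mk' M) : Subgroup Γ) ≤
        Nat.card (P ⊓ centralizer {z} : Subgroup Γ) := by
    intro hB
    obtain ⟨x', hx', hx1', hxz', hle'⟩ := h3' hB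
    obtain ⟨x, hx, hxx', hxz⟩ := lift_inv M P hMP hodd z hz x' hx' hxz'
    refine ⟨x, hx, ?_, hxz, ?_⟩
    · intro h
      apply hx1'
      rw [← hxx']
      exact (QuotientGroup.eq_one_iff x).2 h
    · rw [← card_pre M (P ⊓ centralizer {z}) (centralizer {(QuotientGroup.mk' M) x}), ← hCC, hxx']
      calc p ^ (B' - 1) * (Nat.card (M ⊓ (P ⊓ centralizer {z}) : Subgroup Γ) *
            Nat.card ((P ⊓ centralizer {z}).map (QuotientGroup.mk' M) ⊓ centralizer {x'} :
              Subgroup (Γ ⧸ M)))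
          = Nat.card (M ⊓ (P ⊓ centralizer {z}) : Subgroup Γ) * (p ^ (B' - 1) *
            Nat.card ((P ⊓ centralizer {z}).map (QuotientGroup.mk' M) ⊓ centralizer {x'} :
              Subgroup (Γ ⧸ M))) := by ring
        _ ≤ _ := Nat.mul_le_mul_left _ hle'
  have hdropx : ∀ x, Nat.card (P ⊓ centralizer {z} ⊓ centralizer {x} : Subgroup Γ) ≤
      Nat.card (P ⊓ centralizer {z} ⊓
        (centralizer {(QuotientGroup.mk' M) x}).comap (QuotientGroup.mk' M) : Subgroup Γ) :=
    fun x => Subgroup.card_le_of_le (inf_le_inf_left _ (cent_le_comap M x))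
  have hlift2 : 1 ≤ B' → ∃ x ∈ P, x ≠ 1 ∧ z * x * z = x⁻¹ ∧
      p ^ (B' - 1) * Nat.card (P ⊓ centralizer {z} ⊓ centralizer {x} : Subgroup Γ) ≤
        Nat.card (P ⊓ centralizer {z} : Subgroup Γ) := by
    intro hB
    obtain ⟨x, hx, hxM, hxz, hle⟩ := hlift hB
    refine ⟨x, hx, fun h => hxM (h ▸ M.one_mem), hxz, ?_⟩
    exact (Nat.mul_le_mul_left _ (hdropx x)).trans hle
  rcases dich P M hMP hcen hmin z hz hzc with htriv | ⟨hbot, hinv⟩
  · -- the involution centralizes the layer
    obtain ⟨E, hE1, hE2, hE3⟩ : ∃ E : Finset Γ, (∀ e ∈ E, e ∈ M ∧ e ≠ 1) ∧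
        (∀ e ∈ E, ∀ e' ∈ E, IsConj e e' → e = e') ∧ d ≤ E.card := by
      rcases hS.min M hMb hmin with ⟨q, hq, hq2, hMq⟩ | ⟨hM4, -⟩ | ⟨E, hE1, hE2, hE3⟩
      · have hqp : q = p := by
          have h1 : q ∣ p ^ d := by
            rw [← hd, hMq]
            exact dvd_pow_self q (by norm_num)
          exact (Nat.prime_dvd_prime_iff_eq hq hp).1 (hq.dvd_of_dvd_pow h1)
        rw [hqp] at hMq
        have hd2 : d = 2 := by
          rw [hd] at hMq
          exact Nat.pow_right_injective hp.two_le hMq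
        obtain ⟨v, hv, w, hw, hv1, hw1, hvw⟩ := two_classes hp hp2 P M hMn hMq hidx hcen z hz
          hzP htriv
        classical
        refine ⟨{v, w}, ?_, ?_, ?_⟩
        · intro e he
          rcases Finset.mem_insert.1 he with rfl | he
          · exact ⟨hv, hv1⟩
          · rw [Finset.mem_singleton.1 he]
            exact ⟨hw, hw1⟩
        · intro e he e' he' hc
          rcases Finset.mem_insert.1 he with rfl | he
          · rcases Finset.mem_insert.1 he' with rfl | he'
            · rfl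
            · rw [Finset.mem_singleton.1 he'] at hc
              exact absurd hc hvw
          · rw [Finset.mem_singleton.1 he] at hc ⊢
            rcases Finset.mem_insert.1 he' with rfl | he'
            · exact absurd hc.symm hvw
            · rw [Finset.mem_singleton.1 he']
        · rw [Finset.card_pair (fun h : v = w => hvw (h ▸ IsConj.refl v))]
          omega
      · exfalso
        have h1 : p ∣ 2 ^ 2 := by
          have h2 : p ∣ Nat.card M := by
            rw [hd]
            exact dvd_pow_self p hd0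
          rw [hM4] at h2
          exact h2
        exact hp2 ((Nat.prime_dvd_prime_iff_eq hp Nat.prime_two).1 (hp.dvd_of_dvd_pow h1))
      · refine ⟨E, hE1, hE2, ?_⟩
        rw [hd, Om_pow hp] at hE3
        exact hE3
    have hg := gain_two M hodd z hz hz1 htriv E hE1 hE2
    refine ⟨A' + d, B', ?_, ?_, hlift2⟩
    · rw [hOm]
      omega
    · rw [← hCC, pow_add, mul_comm (p ^ A')]
      apply Nat.mul_le_mul _ h2'
      rw [← hd]
      exact Subgroup.card_le_of_le inf_le_left
  · -- the involution inverts the layer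
    have hM0 : M ⊓ (P ⊓ centralizer {z}) = ⊥ := by
      rw [eq_bot_iff, ← hbot]
      exact inf_le_inf_left _ inf_le_right
    have hC0 : Nat.card ((P ⊓ centralizer {z}).map (QuotientGroup.mk' M)) =
        Nat.card (P ⊓ centralizer {z} : Subgroup Γ) := by
      rw [← hCC, hM0, Subgroup.card_bot, one_mul]
    by_cases hgain : cc (Γ ⧸ M) + d ≤ cc Γ
    · refine ⟨A', B', ?_, ?_, hlift2⟩
      · rw [hOm]
        omega
      · rw [← hC0]
        exact h2'
    · push Not at hgain
      rcases hS.min M hMb hmin with ⟨q, hq, hq2, hMq⟩ | ⟨hM4, -⟩ | ⟨E, hE1, hE2, hE3⟩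
      · have hqp : q = p := by
          have h1 : q ∣ p ^ d := by
            rw [← hd, hMq]
            exact dvd_pow_self q (by norm_num)
          exact (Nat.prime_dvd_prime_iff_eq hq hp).1 (hq.dvd_of_dvd_pow h1)
        rw [hqp] at hMq
        have hd2 : d = 2 := by
          rw [hd] at hMq
          exact Nat.pow_right_injective hp.two_le hMq
        have hcam := camina M (by omega)
        obtain ⟨⟨v, hv⟩, hv'⟩ := Subgroup.ne_bot_iff_exists_ne_one.1 hMb
        have hv1 : v ≠ 1 := fun h => hv' (Subtype.ext h)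
        have hone := cc_ge_one M hv hv1
        refine ⟨A', B' + 1, ?_, ?_, ?_⟩
        · rw [hOm]
          omega
        · rw [← hC0]
          exact h2'
        · intro _
          rw [Nat.add_sub_cancel]
          rcases Nat.eq_zero_or_pos B' with hB0 | hB
          · refine ⟨v, hMP hv, hv1, hinv v hv, ?_⟩
            rw [hB0, pow_zero, one_mul]
            exact Subgroup.card_le_of_le inf_le_left
          · obtain ⟨x, hx, hxM, hxz, hle⟩ := hlift hB
            refine ⟨x, hx, fun h => hxM (h ▸ M.one_mem), hxz, ?_⟩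
            have hdr := drop hp hp2 ha P M hP hMq hidx hcen z hz hinv x hx hxz
              (fun m hm => hcam.2 hMb x hxM m hm)
            have hpow : p ^ B' = p ^ (B' - 1) * p := by
              rw [← pow_succ]
              congr 1
              omega
            rw [hpow, mul_assoc]
            exact (Nat.mul_le_mul_left _ hdr).trans hle
      · exfalso
        have h1 : p ∣ 2 ^ 2 := by
          have h2 : p ∣ Nat.card M := by
            rw [hd]
            exact dvd_pow_self p hd0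
          rw [hM4] at h2
          exact h2
        exact hp2 ((Nat.prime_dvd_prime_iff_eq hp Nat.prime_two).1 (hp.dvd_of_dvd_pow h1))
      · exfalso
        rw [hd, Om_pow hp] at hE3
        have h := cc_add_le M E (fun _ => 1) hE2 (by
          intro e he
          refine ⟨by simpa using (hE1 e he).1, ?_⟩
          intro e' he' hc
          rw [isConj_one_right] at hc
          exact (hE1 e' he').2 hc)
        omega

/-- the chain theorem -/
theorem chain {Γ : Type} [Group Γ] [Finite Γ] (hS : Star Γ) {p : ℕ} (hp : p.Prime) (hp2 : p ≠ 2)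
    (P : Subgroup Γ) [P.Normal] (hP : IsPGroup p P) (a : ℕ) (ha : a ≤ 1)
    (hidx : P.index = (p ^ 2 - 1) * p ^ a) (z : Γ) (hz : z * z = 1) (hz1 : z ≠ 1)
    (hzc : ∀ g : Γ, g * z * g⁻¹ * z ∈ P) :
    cc (Γ ⧸ P) + Om (Nat.card P) ≤ cc Γ + 1 := by
  obtain ⟨A, B, h1, h2, h3⟩ := chain_aux hp hp2 ha (Nat.card P) Γ hS P hP rfl hidx z hz hz1 hzc
  have hBA : B ≤ A + 1 := by
    rcases Nat.eq_zero_or_pos B with hB | hB
    · omega
    · obtain ⟨x, -, -, -, hle⟩ := h3 hB
      have h4 : p ^ (B - 1) ≤ p ^ A := by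
        have h5 : 0 < Nat.card (P ⊓ centralizer {z} ⊓ centralizer {x} : Subgroup Γ) :=
          Nat.card_pos
        calc p ^ (B - 1) ≤ p ^ (B - 1) *
              Nat.card (P ⊓ centralizer {z} ⊓ centralizer {x} : Subgroup Γ) :=
              Nat.le_mul_of_pos_right _ h5
          _ ≤ p ^ A := hle.trans h2
      have h6 := (Nat.pow_le_pow_iff_right hp.one_lt).1 h4
      omega
  omega

end Pool.Agent.BertramR2
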