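import Pool.Agent.BertramR2.Tools

set_option autoImplicit false

namespace Pool.Agent.BertramR2

open Subgroup

theorem cc_congr {G H : Type} [Group G] [Group H] (e : G ≃* H) : cc G = cc H := by
  apply Nat.card_congr
  refine ⟨ConjClasses.map e.toMonoidHom, ConjClasses.map e.symm.toMonoidHom, ?_, ?_⟩
  · intro a
    obtain ⟨a, rfl⟩ := ConjClasses.exists_rep a
    show ConjClasses.mk (e.symm (e a)) = ConjClasses.mk a
    rw [e.symm_apply_apply]
  · intro a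
    obtain ⟨a, rfl⟩ := ConjClasses.exists_rep a
    show ConjClasses.mk (e (e.symm a)) = ConjClasses.mk a
    rw [e.apply_symm_apply]

theorem Om_pow {p : ℕ} (hp : p.Prime) (d : ℕ) : Om (p ^ d) = d := by
  induction d with
  | zero => rw [pow_zero, Om_one]
  | succ n ih => rw [pow_succ, Om_mul (pow_ne_zero _ hp.ne_zero) hp.ne_zero, ih, Om_prime hp]

theorem mk_mem_cent {G : Type} [Group G] {M : Subgroup G} [M.Normal] {x g : G} :
    (QuotientGroup.mk' M) g ∈ (centralizer {(QuotientGroup.mk' M) x} : Subgroup (G ⧸ M)) ↔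
      x⁻¹ * (g * x * g⁻¹) ∈ M := by
  rw [mem_centralizer_singleton_iff, ← map_mul, ← map_mul]
  constructor
  · intro h
    have h1 : (g * x)⁻¹ * (x * g) ∈ M := QuotientGroup.eq.1 h
    have h2 : x⁻¹ * (g * x * g⁻¹) = g * ((g * x)⁻¹ * (x * g))⁻¹ * g⁻¹ := by group
    rw [h2]
    exact Subgroup.Normal.conj_mem inferInstance _ (M.inv_mem h1) g
  · intro h
    apply QuotientGroup.eq.2
    have h2 : (g * x)⁻¹ * (x * g) = g⁻¹ * (x⁻¹ * (g * x * g⁻¹))⁻¹ * (g⁻¹)⁻¹ := by group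
    rw [h2]
    exact Subgroup.Normal.conj_mem inferInstance _ (M.inv_mem h) g⁻¹

/-- the fixed points of the involution lift -/
theorem map_cent {G : Type} [Group G] [Finite G] (M P : Subgroup G) [hM : M.Normal]
    (hMP : M ≤ P) (hodd : Odd (Nat.card M)) (z : G) (hz : z * z = 1) :
    (P ⊓ centralizer {z}).map (QuotientGroup.mk' M) =
      P.map (QuotientGroup.mk' M) ⊓ centralizer {(QuotientGroup.mk' M) z} := by
  apply le_antisymm
  · rintro _ ⟨g, hg, rfl⟩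
    obtain ⟨hg1, hg2⟩ := Subgroup.mem_inf.1 hg
    refine Subgroup.mem_inf.2 ⟨⟨g, hg1, rfl⟩, ?_⟩
    rw [mem_centralizer_singleton_iff] at hg2 ⊢
    rw [← map_mul, hg2, map_mul]
  · intro q hq
    obtain ⟨hq1, hq2⟩ := Subgroup.mem_inf.1 hq
    obtain ⟨g, hg, rfl⟩ := hq1
    rw [mk_mem_cent] at hq2
    have hzi : z⁻¹ = z := inv_eq_of_mul_eq_one_left hz
    have h1 : g⁻¹ * (z * g * z) ∈ M := by
      have h2 : g⁻¹ * (z * g * z) = g⁻¹ * (z⁻¹ * (g * z * g⁻¹)) * (g⁻¹)⁻¹ := by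
        calc g⁻¹ * (z * g * z) = g⁻¹ * (z⁻¹ * g * z) := by rw [hzi]
          _ = g⁻¹ * (z⁻¹ * (g * z * g⁻¹)) * (g⁻¹)⁻¹ := by group
      rw [h2]
      exact hM.conj_mem _ hq2 _
    obtain ⟨y, hy, hy2⟩ := fix_in_coset M hodd z g hz (by
      intro y hy
      have h3 : g⁻¹ * (z * (g * y) * z) = (g⁻¹ * (z * g * z)) * (z⁻¹ * y * z) := by group
      rw [h3]
      refine M.mul_mem h1 ?_
      have := hM.conj_mem y hy z⁻¹
      rwa [inv_inv] at this)
    refine ⟨g * y, Subgroup.mem_inf.2 ⟨P.mul_mem hg (hMP hy), ?_⟩, ?_⟩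
    · rw [mem_centralizer_singleton_iff]
      calc g * y * z = z * (g * y) * z * z := by rw [hy2]
        _ = z * (g * y) * (z * z) := by group
        _ = z * (g * y) := by rw [hz, mul_one]
    · apply QuotientGroup.eq.2
      have : (g * y)⁻¹ * g = y⁻¹ := by group
      rw [this]
      exact M.inv_mem hy

/-- inverted elements lift -/
theorem lift_inv {G : Type} [Group G] [Finite G] (M P : Subgroup G) [hM : M.Normal]
    (hMP : M ≤ P) (hodd : Odd (Nat.card M)) (z : G) (hz : z * z = 1) (x' : G ⧸ M)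
    (hx' : x' ∈ P.map (QuotientGroup.mk' M))
    (hinv : (QuotientGroup.mk' M) z * x' * (QuotientGroup.mk' M) z = x'⁻¹) :
    ∃ x ∈ P, (QuotientGroup.mk' M) x = x' ∧ z * x * z = x⁻¹ := by
  obtain ⟨g, hg, rfl⟩ := hx'
  have hzi : z⁻¹ = z := inv_eq_of_mul_eq_one_left hz
  rw [← map_mul, ← map_mul, ← map_inv] at hinv
  have h1 : (g⁻¹)⁻¹ * (z * g * z) ∈ M := QuotientGroup.eq.1 hinv.symm
  rw [inv_inv] at h1
  obtain ⟨y, hy, hy2⟩ := inv_in_coset M hodd z g hz (by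
    intro y hy
    have h3 : g⁻¹ * (z * (g * y)⁻¹ * z) = (g⁻¹ * (z * y⁻¹ * z⁻¹) * (g⁻¹)⁻¹) *
        (g⁻¹ * (z * g⁻¹ * z)) := by
      group
    have h4 : g⁻¹ * (z * g⁻¹ * z) = z * (g * (z * g * z))⁻¹ * z⁻¹ := by
      calc g⁻¹ * (z * g⁻¹ * z) = g⁻¹ * (z⁻¹ * g⁻¹ * z⁻¹) := by rw [hzi]
        _ = z * (g * (z * g * z))⁻¹ * z⁻¹ := by group
    rw [h3, h4]
    refine M.mul_mem (hM.conj_mem _ (hM.conj_mem _ (M.inv_mem hy) _) _) ?_
    exact hM.conj_mem _ (M.inv_mem h1) _)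
  refine ⟨g * y, P.mul_mem hg (hMP hy), ?_, ?_⟩
  · apply QuotientGroup.eq.2
    have : (g * y)⁻¹ * g = y⁻¹ := by group
    rw [this]
    exact M.inv_mem hy
  · have h5 : z * (g * y) * z = (z * (g * y)⁻¹ * z)⁻¹ := by
      calc z * (g * y) * z = z⁻¹ * (g * y) * z⁻¹ := by rw [hzi]
        _ = (z * (g * y)⁻¹ * z)⁻¹ := by group
    rw [h5, hy2]

/-- cardinality of a preimage in `K` -/
theorem card_pre {G : Type} [Group G] [Finite G] (M K : Subgroup G) [M.Normal]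
    (L : Subgroup (G ⧸ M)) :
    Nat.card (M ⊓ K : Subgroup G) * Nat.card (K.map (QuotientGroup.mk' M) ⊓ L : Subgroup (G ⧸ M))
      = Nat.card (K ⊓ L.comap (QuotientGroup.mk' M) : Subgroup G) := by
  have h := card_map_mul M (K ⊓ L.comap (QuotientGroup.mk' M))
  have h1 : M ⊓ (K ⊓ L.comap (QuotientGroup.mk' M)) = M ⊓ K := by
    apply le_antisymm
    · exact inf_le_inf_left _ inf_le_left
    · refine le_inf inf_le_left (le_inf inf_le_right ?_)
      intro m hm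
      rw [Subgroup.mem_comap]
      have : (QuotientGroup.mk' M) m = 1 := (QuotientGroup.eq_one_iff m).2 (Subgroup.mem_inf.1 hm).1
      rw [this]
      exact L.one_mem
  have h2 : (K ⊓ L.comap (QuotientGroup.mk' M)).map (QuotientGroup.mk' M) =
      K.map (QuotientGroup.mk' M) ⊓ L := by
    apply le_antisymm
    · rintro _ ⟨g, hg, rfl⟩
      obtain ⟨hg1, hg2⟩ := Subgroup.mem_inf.1 hg
      exact Subgroup.mem_inf.2 ⟨⟨g, hg1, rfl⟩, hg2⟩
    · intro q hq
      obtain ⟨⟨g, hg, rfl⟩, hq2⟩ := Subgroup.mem_inf.1 hq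
      exact ⟨g, Subgroup.mem_inf.2 ⟨hg, hq2⟩, rfl⟩
  rw [h1, h2] at h
  exact h

/-- a proper subgroup of a `p`-group -/
theorem card_lt_pgroup {G : Type} [Group G] [Finite G] {p : ℕ} (hp : p.Prime) (S T : Subgroup G)
    (hT : IsPGroup p T) (hST : S ≤ T) (hne : S ≠ T) : p * Nat.card S ≤ Nat.card T := by
  have : Fact p.Prime := ⟨hp⟩
  obtain ⟨n, hn⟩ := IsPGroup.iff_card.1 hT
  have h1 := card_inf_mul S T
  rw [inf_eq_left.2 hST] at h1
  have h2 : S.relIndex T ∣ p ^ n := by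
    rw [← hn, ← h1]
    exact dvd_mul_left _ _
  obtain ⟨k, -, hk⟩ := (Nat.dvd_prime_pow hp).1 h2
  have hk0 : k ≠ 0 := by
    rintro rfl
    rw [pow_zero, Subgroup.relIndex_eq_one] at hk
    exact hne (le_antisymm hST hk)
  have h3 : p ≤ S.relIndex T := by
    rw [hk]
    exact Nat.le_self_pow hk0 p
  calc p * Nat.card S ≤ S.relIndex T * Nat.card S := Nat.mul_le_mul_right _ h3
    _ = Nat.card T := by rw [mul_comm, h1]

theorem not_sq_dvd {p a : ℕ} (hp : p.Prime) (ha : a ≤ 1) : ¬ p ^ 2 ∣ (p ^ 2 - 1) * p ^ a := by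
  intro h
  have h1 : p ^ 2 ∣ (p ^ 2 - 1) * p := by
    interval_cases a
    · rw [pow_zero, mul_one] at h
      exact Dvd.dvd.mul_right h p
    · rwa [pow_one] at h
  rw [pow_two, mul_comm (p * p - 1) p] at h1
  have h2 : p ∣ p * p - 1 := Nat.dvd_of_mul_dvd_mul_left hp.pos h1
  have h3 : p ∣ p * p - (p * p - 1) := Nat.dvd_sub (dvd_mul_right p p) h2
  have h4 : 0 < p * p := Nat.mul_pos hp.pos hp.pos
  have h5 : p * p - (p * p - 1) = 1 := by omega
  rw [h5] at h3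
  exact hp.one_lt.ne' (Nat.dvd_one.1 h3)

end Pool.Agent.BertramR2
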