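import Pool.Agent.BertramR2.ChainA

set_option autoImplicit false

namespace Pool.Agent.BertramR2

open Subgroup

theorem exists_min {G : Type} [Group G] [Finite G] (P : Subgroup G) [hPn : P.Normal]
    (hP : P ≠ ⊥) : ∃ M : Subgroup G, M.Normal ∧ M ≤ P ∧ M ≠ ⊥ ∧
      ∀ K : Subgroup G, K.Normal → K ≤ M → K = ⊥ ∨ K = M := by
  obtain ⟨M, hM⟩ := exists_minimal_of_wellFoundedLT
    (fun K : Subgroup G => K.Normal ∧ K ≤ P ∧ K ≠ ⊥) ⟨P, hPn, le_rfl, hP⟩
  refine ⟨M, hM.prop.1, hM.prop.2.1, hM.prop.2.2, ?_⟩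
  intro K hK hKM
  by_cases hb : K = ⊥
  · exact Or.inl hb
  · exact Or.inr (le_antisymm hKM (hM.le_of_le ⟨hK, hKM.trans hM.prop.2.1, hb⟩ hKM))

/-- the involution centralizes or inverts a minimal normal subgroup -/
theorem dich {G : Type} [Group G] [Finite G] (P M : Subgroup G) [hMn : M.Normal]
    (hMP : M ≤ P) (hcen : ∀ m ∈ M, ∀ g ∈ P, g * m = m * g)
    (hmin : ∀ K : Subgroup G, K.Normal → K ≤ M → K = ⊥ ∨ K = M) (z : G) (hz : z * z = 1)
    (hzc : ∀ g : G, g * z * g⁻¹ * z ∈ P) :
    (∀ m ∈ M, z * m = m * z) ∨ (M ⊓ centralizer {z} = ⊥ ∧ ∀ m ∈ M, z * m * z = m⁻¹) := by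
  have hzi : z⁻¹ = z := inv_eq_of_mul_eq_one_left hz
  have hK : (M ⊓ centralizer {z} : Subgroup G).Normal := by
    constructor
    intro m hm g
    obtain ⟨hm1, hm2⟩ := Subgroup.mem_inf.1 hm
    have hm1' := hMn.conj_mem m hm1 g
    refine Subgroup.mem_inf.2 ⟨hm1', ?_⟩
    rw [mem_centralizer_singleton_iff] at hm2 ⊢
    have h1 := hcen _ hm1' _ (hzc g)
    -- `(g z g⁻¹ z) m' = m' (g z g⁻¹ z)` and `g z g⁻¹` commutes with `m'`
    have h2 : g * z * g⁻¹ * (g * m * g⁻¹) = g * m * g⁻¹ * (g * z * g⁻¹) := by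
      calc g * z * g⁻¹ * (g * m * g⁻¹) = g * (z * m) * g⁻¹ := by group
        _ = g * (m * z) * g⁻¹ := by rw [hm2]
        _ = g * m * g⁻¹ * (g * z * g⁻¹) := by group
    have h3 : g * z * g⁻¹ * (z * (g * m * g⁻¹)) = g * z * g⁻¹ * (g * m * g⁻¹ * z) := by
      calc g * z * g⁻¹ * (z * (g * m * g⁻¹)) = g * z * g⁻¹ * z * (g * m * g⁻¹) := by group
        _ = g * m * g⁻¹ * (g * z * g⁻¹ * z) := h1
        _ = g * m * g⁻¹ * (g * z * g⁻¹) * z := by group
        _ = g * z * g⁻¹ * (g * m * g⁻¹) * z := by rw [h2]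
        _ = g * z * g⁻¹ * (g * m * g⁻¹ * z) := by group
    exact (mul_left_cancel h3).symm
  rcases hmin _ hK inf_le_left with h | h
  · right
    refine ⟨h, ?_⟩
    intro m hm
    have h1 : z * m * z ∈ M := by
      have := hMn.conj_mem m hm z
      rwa [hzi] at this
    have h2 : m * (z * m * z) ∈ M ⊓ centralizer {z} := by
      refine Subgroup.mem_inf.2 ⟨M.mul_mem hm h1, ?_⟩
      rw [mem_centralizer_singleton_iff]
      have h3 : m * (z * m * z) = z * m * z * m := (hcen _ h1 _ (hMP hm))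
      calc m * (z * m * z) * z = m * z * m * (z * z) := by group
        _ = z * z * m * z * m := by rw [hz]; group
        _ = z * (z * m * z * m) := by group
        _ = z * (m * (z * m * z)) := by rw [h3]
    rw [h, Subgroup.mem_bot] at h2
    exact (inv_eq_of_mul_eq_one_right h2).symm
  · left
    intro m hm
    rw [← h] at hm
    have := (Subgroup.mem_inf.1 hm).2
    rw [mem_centralizer_singleton_iff] at this
    exact this.symm

/-- layers centralized by the involution count twice -/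
theorem gain_two {G : Type} [Group G] [Finite G] (M : Subgroup G) [hMn : M.Normal]
    (hodd : Odd (Nat.card M)) (z : G) (hz : z * z = 1) (hz1 : z ≠ 1)
    (hcomm : ∀ m ∈ M, z * m = m * z) (E : Finset G) (hE : ∀ e ∈ E, e ∈ M ∧ e ≠ 1)
    (hE2 : ∀ e ∈ E, ∀ e' ∈ E, IsConj e e' → e = e') :
    cc (G ⧸ M) + 2 * E.card ≤ cc G := by
  classical
  set n := Nat.card M with hn
  have hpow : ∀ m ∈ M, m ^ n = 1 := by
    intro m hm
    have h1 : (⟨m, hm⟩ : M) ^ Nat.card M = 1 := pow_card_eq_one'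
    exact congrArg Subtype.val h1
  obtain ⟨k, hk⟩ := hodd
  have hzn : z ^ n = z := by
    rw [hk, pow_succ, pow_mul, pow_two, hz, one_pow, one_mul]
  have hzn1 : z ^ (n + 1) = 1 := by
    rw [pow_succ, hzn, hz]
  have hzM : z ∉ M := by
    intro h
    have := hpow z h
    rw [hzn] at this
    exact hz1 this
  have hzm : ∀ m ∈ M, z * m ∉ M := fun m hm h => hzM ((Subgroup.mul_mem_cancel_right M hm).1 h)
  have hzmn : ∀ m ∈ M, (z * m) ^ n = z := by
    intro m hm
    have h : Commute z m := hcomm m hm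
    rw [h.mul_pow, hzn, hpow m hm, mul_one]
  have hzmn1 : ∀ m ∈ M, (z * m) ^ (n + 1) = m := by
    intro m hm
    rw [pow_succ, hzmn m hm, ← mul_assoc, hz, one_mul]
  have hdisj : Disjoint E (E.image fun e => z * e) := by
    rw [Finset.disjoint_left]
    intro e he he'
    obtain ⟨e1, he1, rfl⟩ := Finset.mem_image.1 he'
    exact hzm e1 (hE e1 he1).1 (hE _ he).1
  have hcard : (E ∪ E.image fun e => z * e).card = 2 * E.card := by
    rw [Finset.card_union_of_disjoint hdisj, Finset.card_image_of_injective _ (mul_right_injective z)]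
    ring
  have h := cc_add_le M (E ∪ E.image fun e => z * e) (fun e => if e ∈ M then 1 else z) ?_ ?_
  · rwa [hcard] at h
  · intro e he e' he' hc
    rcases Finset.mem_union.1 he with he | he <;> rcases Finset.mem_union.1 he' with he' | he'
    · exact hE2 e he e' he' hc
    · obtain ⟨e1, he1, rfl⟩ := Finset.mem_image.1 he'
      exact absurd (normal_isConj hMn hc (hE e he).1) (hzm e1 (hE e1 he1).1)
    · obtain ⟨e1, he1, rfl⟩ := Finset.mem_image.1 he
      exact absurd (normal_isConj hMn hc.symm (hE e' he').1) (hzm e1 (hE e1 he1).1)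
    · obtain ⟨e1, he1, rfl⟩ := Finset.mem_image.1 he
      obtain ⟨e2, he2, rfl⟩ := Finset.mem_image.1 he'
      have h1 := hc.pow (n + 1)
      rw [hzmn1 e1 (hE e1 he1).1, hzmn1 e2 (hE e2 he2).1] at h1
      rw [hE2 e1 he1 e2 he2 h1]
  · intro e he
    rcases Finset.mem_union.1 he with he | he
    · have heM := (hE e he).1
      simp only [if_pos heM]
      refine ⟨by simpa using heM, ?_⟩
      intro e' he' hc
      rw [isConj_one_right] at hc
      rcases Finset.mem_union.1 he' with he' | he'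
      · exact (hE e' he').2 hc
      · obtain ⟨e1, he1, rfl⟩ := Finset.mem_image.1 he'
        exact hzm e1 (hE e1 he1).1 (hc ▸ M.one_mem)
    · obtain ⟨e1, he1, rfl⟩ := Finset.mem_image.1 he
      have heM := hzm e1 (hE e1 he1).1
      simp only [if_neg heM]
      refine ⟨by simpa using (hE e1 he1).1, ?_⟩
      intro e' he' hc
      rcases Finset.mem_union.1 he' with he' | he'
      · exact hzM (normal_isConj hMn hc.symm (hE e' he').1)
      · obtain ⟨e2, he2, rfl⟩ := Finset.mem_image.1 he'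
        have h1 := hc.pow (n + 1)
        rw [hzn1, hzmn1 e2 (hE e2 he2).1, isConj_one_right] at h1
        exact (hE e2 he2).2 h1

/-- a layer of order `p ^ 2` centralized by the involution has two classes -/
theorem two_classes {G : Type} [Group G] [Finite G] {p a : ℕ} (hp : p.Prime) (hp2 : p ≠ 2)
    (P M : Subgroup G) [hPn : P.Normal] (hMn : M.Normal)
    (hcard : Nat.card M = p ^ 2) (hidx : P.index = (p ^ 2 - 1) * p ^ a)
    (hcen : ∀ m ∈ M, ∀ g ∈ P, g * m = m * g) (z : G) (hz : z * z = 1) (hzP : z ∉ P)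
    (hcomm : ∀ m ∈ M, z * m = m * z) :
    ∃ v ∈ M, ∃ w ∈ M, v ≠ 1 ∧ w ≠ 1 ∧ ¬ IsConj v w := by
  by_contra hcon
  push Not at hcon
  have hp3 : 2 < p := lt_of_le_of_ne hp.two_le (Ne.symm hp2)
  have hM1 : M ≠ ⊥ := by
    intro h
    rw [h, Subgroup.card_bot] at hcard
    have := Nat.one_lt_pow (n := 2) (by norm_num) hp.one_lt
    omega
  obtain ⟨⟨v, hv⟩, hv'⟩ := Subgroup.ne_bot_iff_exists_ne_one.1 hM1
  have hv1 : v ≠ 1 := fun h => hv' (Subtype.ext h)
  have h1 : Nat.card {w : G // IsConj v w} + 1 = Nat.card M := by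
    have h2 : Nat.card M = Nat.card {m : M // m ≠ 1} + 1 := by
      have := Fintype.ofFinite M
      classical
      rw [Nat.card_eq_fintype_card, Nat.card_eq_fintype_card, Fintype.card_subtype_compl,
        Fintype.card_subtype_eq]
      have : 0 < Fintype.card M := Fintype.card_pos
      omega
    rw [h2]
    congr 1
    apply Nat.card_congr
    refine ⟨fun w => ⟨⟨w.1, normal_isConj hMn w.2 hv⟩, ?_⟩, fun m => ⟨m.1.1, ?_⟩, ?_, ?_⟩
    · intro h
      have h3 : w.1 = 1 := congrArg Subtype.val h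
      have h4 := w.2
      rw [h3, isConj_comm, isConj_one_right] at h4
      exact hv1 h4
    · exact hcon v hv m.1.1 m.1.2 hv1 (fun h => m.2 (Subtype.ext h))
    · intro w; rfl
    · intro m; rfl
  rw [card_conj, hcard] at h1
  have hPv : P ≤ centralizer {v} := by
    intro g hg
    rw [mem_centralizer_singleton_iff]
    exact hcen v hv g hg
  have h2 := Subgroup.relIndex_mul_index hPv
  have h3 : (centralizer {v}).index = p ^ 2 - 1 := by omega
  have hpos : 0 < p ^ 2 - 1 := by
    have := Nat.one_lt_pow (n := 2) (by norm_num) hp.one_lt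
    omega
  rw [h3, hidx, mul_comm] at h2
  have h4 : P.relIndex (centralizer {v}) = p ^ a := Nat.eq_of_mul_eq_mul_left hpos h2
  -- `z` gives an element of order two
  have h5 := Subgroup.relIndex_ker (K := centralizer {v}) (QuotientGroup.mk' P)
  rw [QuotientGroup.ker_mk', h4] at h5
  have hzv : z ∈ (centralizer {v} : Subgroup G) := by
    rw [mem_centralizer_singleton_iff]
    exact hcomm v hv
  have h6 : orderOf ((QuotientGroup.mk' P) z) = 2 := by
    apply orderOf_eq_prime
    · rw [pow_two, ← map_mul, hz, map_one]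
    · intro h
      exact hzP ((QuotientGroup.eq_one_iff z).1 h)
  have h7 : 2 ∣ Nat.card ((centralizer {v}).map (QuotientGroup.mk' P)) := by
    rw [← h6]
    exact Subgroup.orderOf_dvd_natCard _ ⟨z, hzv, rfl⟩
  rw [← h5] at h7
  have h8 := (Nat.prime_two).dvd_of_dvd_pow h7
  have h9 := (Nat.prime_dvd_prime_iff_eq Nat.prime_two hp).1 h8
  exact hp2 h9.symm

end Pool.Agent.BertramR2
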