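import Pool.Agent.BertramR2.Chain

set_option autoImplicit false

namespace Pool.Agent.BertramR2

open Subgroup

theorem exists_min_normal {G : Type} [Group G] [Finite G] (hG : (⊤ : Subgroup G) ≠ ⊥) :
    ∃ V : Subgroup G, V.Normal ∧ V ≠ ⊥ ∧
      ∀ K : Subgroup G, K.Normal → K ≤ V → K = ⊥ ∨ K = V := by
  obtain ⟨V, hV⟩ := (Set.toFinite {K : Subgroup G | K.Normal ∧ K ≠ ⊥}).exists_minimal
    ⟨⊤, inferInstance, hG⟩
  refine ⟨V, hV.1.1, hV.1.2, ?_⟩
  intro K hK hKV
  by_cases hb : K = ⊥
  · exact Or.inl hb
  · exact Or.inr (le_antisymm hKV (hV.2 ⟨hK, hb⟩ hKV))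

theorem cc_comm {G : Type} [Group G] (h : ∀ a b : G, a * b = b * a) : cc G = Nat.card G := by
  symm
  apply Nat.card_congr
  refine Equiv.ofBijective ConjClasses.mk ⟨?_, ConjClasses.mk_surjective⟩
  intro a b hab
  obtain ⟨c, hc⟩ := isConj_iff.1 (ConjClasses.mk_eq_mk_iff_isConj.1 hab)
  rw [← hc, h c a]
  group

theorem cc_pos {G : Type} [Group G] [Finite G] : 1 ≤ cc G := by
  have : Nonempty (ConjClasses G) := ⟨1⟩
  exact Nat.card_pos

theorem card_quot_lt {G : Type} [Group G] [Finite G] (V : Subgroup G) (hV : V ≠ ⊥) :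
    Nat.card (G ⧸ V) < Nat.card G := by
  have h := Subgroup.card_eq_card_quotient_mul_card_subgroup V
  have h1 : 1 < Nat.card V := by
    have h2 : Nat.card V ≠ 1 := fun h => hV (Subgroup.card_eq_one.1 h)
    have h3 : 0 < Nat.card V := Nat.card_pos
    omega
  have h4 : 0 < Nat.card (G ⧸ V) := Nat.card_pos
  rw [h]
  nlinarith

theorem Om_card {G : Type} [Group G] [Finite G] (V : Subgroup G) :
    Om (Nat.card G) = Om (Nat.card (G ⧸ V)) + Om (Nat.card V) := by
  rw [Subgroup.card_eq_card_quotient_mul_card_subgroup V]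
  exact Om_mul Nat.card_pos.ne' Nat.card_pos.ne'

section Layer

variable {G : Type} [Group G] [Finite G] {p : ℕ} (V : Subgroup G) [hVn : V.Normal]

omit hVn in
theorem pow_eq_one (hp : p.Prime) (hcard : Nat.card V = p ^ 2)
    (hA : ∀ v ∈ V, ∀ w ∈ V, v ≠ 1 → w ≠ 1 → IsConj v w) : ∀ v ∈ V, v ^ p = 1 := by
  intro v hv
  by_cases hv1 : v = 1
  · rw [hv1, one_pow]
  have : Fact p.Prime := ⟨hp⟩
  obtain ⟨w, hw⟩ := exists_prime_orderOf_dvd_card' (G := V) p
    (by rw [hcard]; exact dvd_pow_self p (by norm_num))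
  have hw1 : (w : G) ≠ 1 := by
    intro h
    have h2 : w = 1 := Subtype.ext h
    rw [h2, orderOf_one] at hw
    exact hp.one_lt.ne hw
  have h1 := hA w w.2 v hv hw1 hv1
  have h2 : (w : G) ^ p = 1 := by
    rw [← hw, ← Subgroup.coe_pow, pow_orderOf_eq_one]
    rfl
  have h3 := h1.pow p
  rw [h2, isConj_one_right] at h3
  exact h3

omit hVn in
theorem centralizer_pgroup (hp : p.Prime) (hpow : ∀ v ∈ V, v ^ p = 1)
    (hB : ∀ x, x ∉ V → ∀ v ∈ V, IsConj x (x * v)) {v : G} (hv : v ∈ V) (hv1 : v ≠ 1) :
    ∃ k, Nat.card (centralizer {v} : Subgroup G) = p ^ k := by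
  refine ⟨_, Nat.eq_prime_pow_of_unique_prime_dvd (p := p) Nat.card_pos.ne' ?_⟩
  intro r hr hrd
  by_contra hne
  have : Fact r.Prime := ⟨hr⟩
  obtain ⟨y, hy⟩ := exists_prime_orderOf_dvd_card' r hrd
  have hy' : orderOf (y : G) = r := by rw [← hy]; exact Subgroup.orderOf_coe y
  have hyV : (y : G) ∉ V := by
    intro h
    have h1 := orderOf_dvd_of_pow_eq_one (hpow _ h)
    rw [hy'] at h1
    rcases (Nat.dvd_prime hp).1 h1 with h2 | h2
    · exact hr.one_lt.ne' h2
    · exact hne h2
  have hcomm : (y : G) * v = v * y := by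
    have := y.2
    rwa [mem_centralizer_singleton_iff] at this
  exact not_conj_mul (k := 1) hp hr hne hy' hv1 (by rw [pow_one]; exact hpow v hv) hcomm
    (hB y hyV v hv)

theorem index_centralizer (hcard : Nat.card V = p ^ 2)
    (hA : ∀ v ∈ V, ∀ w ∈ V, v ≠ 1 → w ≠ 1 → IsConj v w) {v : G} (hv : v ∈ V) (hv1 : v ≠ 1) :
    (centralizer {v} : Subgroup G).index = p ^ 2 - 1 := by
  classical
  rw [← card_conj v, ← hcard]
  have : Fintype G := Fintype.ofFinite G
  have h1 : Nat.card {w : G // IsConj v w} = Nat.card {w : V // w ≠ 1} := by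
    apply Nat.card_congr
    refine ⟨fun w => ⟨⟨w.1, normal_isConj hVn w.2 hv⟩, ?_⟩, fun w => ⟨w.1.1, ?_⟩, ?_, ?_⟩
    · intro h
      have h2 : w.1 = 1 := congrArg Subtype.val h
      have h3 := w.2
      rw [h2, isConj_one_left] at h3
      exact hv1 h3
    · exact hA v hv w.1.1 w.1.2 hv1 (fun h => w.2 (Subtype.ext h))
    · intro w; rfl
    · intro w; rfl
  rw [h1]
  have h2 : Nat.card {w : V // w ≠ 1} = Nat.card V - 1 := by
    rw [Nat.card_eq_fintype_card, Nat.card_eq_fintype_card]
    have h3 := Fintype.card_subtype_compl (fun w : V => w = 1)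
    rw [Fintype.card_subtype_eq] at h3
    exact h3
  exact h2

omit hVn in
theorem V_comm (hp : p.Prime) (hcard : Nat.card V = p ^ 2) :
    ∀ v ∈ V, ∀ w ∈ V, v * w = w * v := by
  intro v hv w hw
  have : Fact p.Prime := ⟨hp⟩
  have h := (IsPGroup.isMulCommutative_of_card_eq_prime_sq hcard).is_comm.comm
    (⟨v, hv⟩ : V) ⟨w, hw⟩
  exact congrArg Subtype.val h

/-- an involution outside the centralizers inverts `V` -/
theorem inverts (hcomm : ∀ v ∈ V, ∀ w ∈ V, v * w = w * v) (z : G) (hz : z * z = 1)
    (hfix : ∀ u ∈ V, u ≠ 1 → z * u ≠ u * z) : ∀ v ∈ V, z * v * z = v⁻¹ := by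
  intro v hv
  have hzi : z⁻¹ = z := inv_eq_of_mul_eq_one_left hz
  have h1 : z * v * z ∈ V := by
    have h := hVn.conj_mem v hv z
    rwa [hzi] at h
  have h2 : v * (z * v * z) ∈ V := V.mul_mem hv h1
  have h3 : z * (v * (z * v * z)) = (v * (z * v * z)) * z := by
    calc z * (v * (z * v * z)) = (z * v * z) * v * z * (z * z) * (z⁻¹ * z⁻¹) := by
          rw [hzi, hz]
          calc z * (v * (z * v * z)) = (z * v * z) * v * z := by group
            _ = (z * v * z) * v * z * 1 * 1 := by group
      _ = ((z * v * z) * v) * z := by rw [hzi, hz]; group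
      _ = (v * (z * v * z)) * z := by rw [hcomm v hv _ h1]
  have h4 : v * (z * v * z) = 1 := by
    by_contra hne
    exact hfix _ h2 hne h3
  exact (inv_eq_of_mul_eq_one_right h4).symm

/-- the index of the centralizer of `V` -/
theorem index_O (hp : p.Prime) (hcard : Nat.card V = p ^ 2)
    (hpow : ∀ v ∈ V, v ^ p = 1)
    (hCv : ∀ v ∈ V, v ≠ 1 → ∃ k, Nat.card (centralizer {v} : Subgroup G) = p ^ k)
    (hidx : ∀ v ∈ V, v ≠ 1 → (centralizer {v} : Subgroup G).index = p ^ 2 - 1) :
    ∃ a, a ≤ 1 ∧ (centralizer (V : Set G)).index = (p ^ 2 - 1) * p ^ a := by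
  classical
  have hbot : V ≠ ⊥ := by
    intro h
    rw [h, Subgroup.card_bot] at hcard
    have h1 := Nat.pow_lt_pow_left hp.one_lt (n := 2) (by norm_num)
    omega
  obtain ⟨⟨v, hv⟩, hv'⟩ := Subgroup.ne_bot_iff_exists_ne_one.1 hbot
  have hv1 : v ≠ 1 := fun h => hv' (Subtype.ext h)
  -- `w` outside `⟨v⟩`
  have hzp : Nat.card (zpowers v) ∣ p := by
    rw [Nat.card_zpowers]
    exact orderOf_dvd_of_pow_eq_one (hpow v hv)
  have hzle : zpowers v ≤ V := by
    rw [Subgroup.zpowers_le]
    exact hv
  obtain ⟨w, hw, hwz⟩ : ∃ w ∈ V, w ∉ zpowers v := by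
    by_contra hcon
    push Not at hcon
    have h1 : V ≤ zpowers v := hcon
    have h2 := Subgroup.card_dvd_of_le h1
    rw [hcard] at h2
    have h3 := Nat.le_of_dvd hp.pos (h2.trans hzp)
    have h4 := hp.one_lt
    nlinarith
  have hwv : w ≠ v := fun h => hwz (h ▸ Subgroup.mem_zpowers v)
  -- `O = C(w) ⊓ C(v)`
  have hO : centralizer (V : Set G) = centralizer {w} ⊓ centralizer {v} := by
    apply le_antisymm
    · intro g hg
      rw [Subgroup.mem_centralizer_iff] at hg
      rw [Subgroup.mem_inf, mem_centralizer_singleton_iff, mem_centralizer_singleton_iff]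
      exact ⟨(hg w hw).symm, (hg v hv).symm⟩
    · intro g hg
      rw [Subgroup.mem_inf, mem_centralizer_singleton_iff, mem_centralizer_singleton_iff] at hg
      rw [Subgroup.mem_centralizer_iff]
      -- the subgroup of `V` commuting with `g`
      have h1 : zpowers v ≤ V ⊓ centralizer {g} := by
        rw [Subgroup.zpowers_le, Subgroup.mem_inf, mem_centralizer_singleton_iff]
        exact ⟨hv, hg.2.symm⟩
      have h2 : w ∈ V ⊓ centralizer {g} := by
        rw [Subgroup.mem_inf, mem_centralizer_singleton_iff]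
        exact ⟨hw, hg.1.symm⟩
      have h3 : Nat.card (V ⊓ centralizer {g} : Subgroup G) ∣ p ^ 2 := by
        rw [← hcard]
        exact Subgroup.card_dvd_of_le inf_le_left
      obtain ⟨j, hj, hjc⟩ := (Nat.dvd_prime_pow hp).1 h3
      have h4 : V ⊓ centralizer {g} = V := by
        apply Subgroup.eq_of_le_of_card_ge inf_le_left
        rw [hcard, hjc]
        by_contra hlt
        push Not at hlt
        have hj1 : j < 2 := (Nat.pow_lt_pow_iff_right hp.one_lt).1 hlt
        have h5 : zpowers v = V ⊓ centralizer {g} := by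
          apply Subgroup.eq_of_le_of_card_ge h1
          rw [hjc]
          have h6 : Nat.card (zpowers v) = p := by
            rcases (Nat.dvd_prime hp).1 hzp with h7 | h7
            · rw [Nat.card_zpowers, orderOf_eq_one_iff] at h7
              exact absurd h7 hv1
            · exact h7
          rw [h6]
          calc p ^ j ≤ p ^ 1 := Nat.pow_le_pow_right hp.pos (by omega)
            _ = p := pow_one p
        exact hwz (h5 ▸ h2)
      intro u hu
      have h5 : u ∈ V ⊓ centralizer {g} := by rw [h4]; exact hu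
      rw [Subgroup.mem_inf, mem_centralizer_singleton_iff] at h5
      exact h5.2
  have hrel : (centralizer (V : Set G)).relIndex (centralizer {v}) =
      (centralizer {w}).relIndex (centralizer {v}) := by
    rw [hO, Subgroup.inf_relIndex_right]
  have h1 : ∀ c ∈ (centralizer {v} : Subgroup G), w⁻¹ * (c * w * c⁻¹) ∈ V := by
    intro c _
    exact V.mul_mem (V.inv_mem hw) (hVn.conj_mem w hw c)
  have h2 := relIndex_eq (centralizer {v}) V w h1
  have h3 : (centralizer {w} : Subgroup G).relIndex (centralizer {v}) < p ^ 2 := by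
    by_contra hge
    push Not at hge
    rw [← hcard] at hge
    have h4 := surj_of_le (centralizer {v}) V w h1 hge (w⁻¹ * v)
      (V.mul_mem (V.inv_mem hw) hv)
    obtain ⟨c, hc, hcw⟩ := h4
    rw [mem_centralizer_singleton_iff] at hc
    have h5 : c * w * c⁻¹ = v := by rw [hcw]; group
    have h6 : w = v := by
      calc w = c⁻¹ * (c * w * c⁻¹) * c := by group
        _ = c⁻¹ * v * c := by rw [h5]
        _ = c⁻¹ * (v * c) := by group
        _ = c⁻¹ * (c * v) := by rw [hc]
        _ = v := by group
    exact hwv h6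
  obtain ⟨k, hk⟩ := hCv v hv hv1
  have h4 : (centralizer (V : Set G)).relIndex (centralizer {v}) ∣ p ^ k := by
    rw [← hk]
    exact Subgroup.relIndex_dvd_card _ _
  obtain ⟨a, _, ha⟩ := (Nat.dvd_prime_pow hp).1 h4
  refine ⟨a, ?_, ?_⟩
  · rw [hrel] at ha
    rw [ha] at h3
    have := (Nat.pow_lt_pow_iff_right hp.one_lt).1 h3
    omega
  · have h5 : centralizer (V : Set G) ≤ centralizer {v} := by
      rw [hO]
      exact inf_le_right
    rw [← Subgroup.relIndex_mul_index h5, ha, hidx v hv hv1, mul_comm]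

end Layer

/-- the quotient `H = G / O` -/
theorem cc_H {H : Type} [Group H] [Finite H] {p a : ℕ} (hp : p.Prime) (hp2 : p ≠ 2)
    (ha : a ≤ 1) (hcard : Nat.card H = (p ^ 2 - 1) * p ^ a) (z : H) (hz : z * z = 1)
    (hz1 : z ≠ 1) (hc : ∀ h : H, h * z = z * h)
    (IH : ∀ (L : Subgroup H) [L.Normal], L ≠ ⊥ → Om (Nat.card (H ⧸ L)) + 1 ≤ cc (H ⧸ L)) :
    Om (Nat.card H) + 2 ≤ cc H := by
  have hLn : (zpowers z).Normal := by
    constructor
    intro x hx g
    obtain ⟨k, rfl⟩ := Subgroup.mem_zpowers_iff.1 hx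
    have h1 : Commute g z := hc g
    have h2 : g * z ^ k * g⁻¹ = z ^ k := by
      rw [(h1.zpow_right k).eq]
      group
    rw [h2]
    exact hx
  have hord : orderOf z = 2 := by
    apply orderOf_eq_prime
    · rw [pow_two]; exact hz
    · exact hz1
  have hLcard : Nat.card (zpowers z) = 2 := by
    rw [Nat.card_zpowers, hord]
  have hLbot : zpowers z ≠ ⊥ := by
    intro h
    rw [Subgroup.zpowers_eq_bot] at h
    exact hz1 h
  have h1 := IH (zpowers z) hLbot
  have h2 := Om_card (zpowers z)
  have h3 : Om (Nat.card (zpowers z)) = 1 := by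
    rw [hLcard]
    exact Om_prime Nat.prime_two
  rw [h3] at h2
  have hp3 : 3 ≤ p := by
    have := hp.two_le
    omega
  by_cases h3d : 3 ∣ Nat.card H
  · have : Fact (Nat.Prime 3) := ⟨Nat.prime_three⟩
    obtain ⟨y, hy⟩ := exists_prime_orderOf_dvd_card' 3 h3d
    have hyL : y ∉ zpowers z := by
      intro h
      have h4 : orderOf y ∣ Nat.card (zpowers z) := by
        have h5 := orderOf_dvd_natCard (⟨y, h⟩ : zpowers z)
        rwa [Subgroup.orderOf_mk] at h5
      rw [hy, hLcard] at h4
      omega
    have h5 := cc_ge_two (zpowers z) (Subgroup.mem_zpowers z) hz1 hyL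
      (not_conj_mul (p := 2) (r := 3) (k := 1) Nat.prime_two Nat.prime_three (by norm_num) hy hz1
        (by rw [pow_one, pow_two]; exact hz) (hc y))
    omega
  · -- `p = 3`, `a = 0`
    have hp33 : p = 3 := by
      by_contra hne
      have h4 : ¬ 3 ∣ p := by
        intro h
        rcases (Nat.dvd_prime hp).1 h with h5 | h5
        · omega
        · exact hne h5.symm
      apply h3d
      rw [hcard]
      apply Dvd.dvd.mul_right
      have h5 : p % 3 = 1 ∨ p % 3 = 2 := by omega
      have h6 : p ^ 2 % 3 = 1 := by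
        rcases h5 with h5 | h5
        · rw [Nat.pow_mod, h5]
        · rw [Nat.pow_mod, h5]
      have h7 : 1 ≤ p ^ 2 := Nat.one_le_pow _ _ hp.pos
      omega
    subst hp33
    have ha0 : a = 0 := by
      by_contra hne
      have ha1 : a = 1 := by omega
      apply h3d
      rw [hcard, ha1]
      norm_num
    subst ha0
    have h8 : Nat.card H = 8 := by rw [hcard]; norm_num
    have h4 := Subgroup.card_eq_card_quotient_mul_card_subgroup (zpowers z)
    rw [h8, hLcard] at h4
    have h5 : Nat.card (H ⧸ zpowers z) = 2 ^ 2 := by omega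
    have : Fact (Nat.Prime 2) := ⟨Nat.prime_two⟩
    have h6 := (IsPGroup.isMulCommutative_of_card_eq_prime_sq h5).is_comm.comm
    have h7 := cc_comm h6
    have h9 := cc_ge_one (zpowers z) (Subgroup.mem_zpowers z) hz1
    have h10 : Om 8 = 3 := by
      have h11 : (8 : ℕ) = 2 * 2 ^ 2 := by norm_num
      rw [h11, Om_mul (by norm_num) (by norm_num), Om_prime Nat.prime_two, Om_sq Nat.prime_two]
    rw [h8, h10]
    omega

theorem main_aux (n : ℕ) : ∀ (G : Type) [Group G] [Finite G], Star G → Nat.card G ≤ n →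
    Om (Nat.card G) + 1 ≤ cc G := by
  induction n with
  | zero =>
    intro G _ _ _ h
    have : 0 < Nat.card G := Nat.card_pos
    omega
  | succ n ih =>
    intro G _ _ hS hn
    by_cases htop : (⊤ : Subgroup G) = ⊥
    · have h1 : Nat.card G = 1 := by
        rw [← Subgroup.card_top, htop, Subgroup.card_bot]
      rw [h1, Om_one]
      exact cc_pos
    obtain ⟨V, hVn, hVbot, hVmin⟩ := exists_min_normal htop
    have hlt := card_quot_lt V hVbot
    have hIH := ih (G ⧸ V) (hS.quot V) (by omega)
    have hOm := Om_card V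
    -- the square case
    have key : ∀ p : ℕ, p.Prime → Nat.card V = p ^ 2 →
        (p = 2 → ∀ j : ℕ, Nat.card G ≠ 3 * 2 ^ j) → Om (Nat.card G) + 1 ≤ cc G := by
      intro p hp hcard h2
      have hOV : Om (Nat.card V) = 2 := by rw [hcard]; exact Om_sq hp
      by_contra hcon
      obtain ⟨hA, hB'⟩ := camina V (by omega)
      have hB := hB' hVbot
      have hpow := pow_eq_one V hp hcard hA
      have hCv : ∀ v ∈ V, v ≠ 1 → ∃ k, Nat.card (centralizer {v} : Subgroup G) = p ^ k :=
        fun v hv hv1 => centralizer_pgroup V hp hpow hB hv hv1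
      have hidx : ∀ v ∈ V, v ≠ 1 → (centralizer {v} : Subgroup G).index = p ^ 2 - 1 :=
        fun v hv hv1 => index_centralizer V hcard hA hv hv1
      obtain ⟨⟨v, hv⟩, hv'⟩ := Subgroup.ne_bot_iff_exists_ne_one.1 hVbot
      have hv1 : v ≠ 1 := fun h => hv' (Subtype.ext h)
      obtain ⟨k, hk⟩ := hCv v hv hv1
      have hGcard : (p ^ 2 - 1) * p ^ k = Nat.card G := by
        rw [← hidx v hv hv1, ← hk]
        exact Subgroup.index_mul_card _
      by_cases hp2 : p = 2
      · subst hp2
        exact h2 rfl k (by rw [← hGcard]; norm_num)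
      · -- odd `p`
        have hpodd : p % 2 = 1 := hp.eq_two_or_odd.resolve_left hp2
        have h2d : 2 ∣ Nat.card G := by
          rw [← hGcard]
          apply Dvd.dvd.mul_right
          have h6 : p ^ 2 % 2 = 1 := by rw [Nat.pow_mod, hpodd]
          have h7 : 1 ≤ p ^ 2 := Nat.one_le_pow _ _ hp.pos
          omega
        have : Fact (Nat.Prime 2) := ⟨Nat.prime_two⟩
        obtain ⟨z, hz⟩ := exists_prime_orderOf_dvd_card' 2 h2d
        have hzz : z * z = 1 := by
          rw [← pow_two, ← hz]
          exact pow_orderOf_eq_one z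
        have hz1 : z ≠ 1 := by
          rintro rfl
          rw [orderOf_one] at hz
          omega
        have hzi : z⁻¹ = z := inv_eq_of_mul_eq_one_left hzz
        have hzC : ∀ u ∈ V, u ≠ 1 → z * u ≠ u * z := by
          intro u hu hu1 hc
          obtain ⟨j, hj⟩ := hCv u hu hu1
          have h3 : z ∈ (centralizer {u} : Subgroup G) := mem_centralizer_singleton_iff.2 hc
          have h4 : orderOf z ∣ Nat.card (centralizer {u} : Subgroup G) := by
            have h5 := orderOf_dvd_natCard (⟨z, h3⟩ : (centralizer {u} : Subgroup G))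
            rwa [Subgroup.orderOf_mk] at h5
          rw [hz, hj] at h4
          have h5 := (Nat.prime_dvd_prime_iff_eq Nat.prime_two hp).1
            (Nat.prime_two.dvd_of_dvd_pow h4)
          exact hp2 h5.symm
        have hinv := inverts V (V_comm V hp hcard) z hzz hzC
        obtain ⟨a, ha, hidxO⟩ := index_O V hp hcard hpow hCv hidx
        set O : Subgroup G := centralizer (V : Set G) with hO
        have hOn : O.Normal := by
          rw [hO]
          infer_instance
        have hzv : ∀ u ∈ V, z * u = u⁻¹ * z := by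
          intro u hu
          calc z * u = z * u * z * z⁻¹ := by group
            _ = u⁻¹ * z⁻¹ := by rw [hinv u hu]
            _ = u⁻¹ * z := by rw [hzi]
        have hzc : ∀ g : G, g * z * g⁻¹ * z ∈ O := by
          intro g
          rw [hO, Subgroup.mem_centralizer_iff]
          intro u hu
          have hu2 : g⁻¹ * u⁻¹ * g ∈ V := by
            have h3 := hVn.conj_mem u⁻¹ (V.inv_mem hu) g⁻¹
            rwa [inv_inv] at h3
          symm
          calc g * z * g⁻¹ * z * u = g * z * g⁻¹ * (z * u) := by group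
            _ = g * z * g⁻¹ * (u⁻¹ * z) := by rw [hzv u hu]
            _ = g * (z * (g⁻¹ * u⁻¹ * g)) * g⁻¹ * z := by group
            _ = g * ((g⁻¹ * u⁻¹ * g)⁻¹ * z) * g⁻¹ * z := by rw [hzv _ hu2]
            _ = u * (g * z * g⁻¹ * z) := by group
        have hOp : IsPGroup p O := by
          have : Fact p.Prime := ⟨hp⟩
          have h3 : O ≤ centralizer {v} := by
            intro g hg
            rw [hO, Subgroup.mem_centralizer_iff] at hg
            exact mem_centralizer_singleton_iff.2 (hg v hv).symm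
          exact (IsPGroup.of_card hk).to_le h3
        have hzO : z ∉ O := by
          intro h
          rw [hO, Subgroup.mem_centralizer_iff] at h
          exact hzC v hv hv1 (h v hv).symm
        have hch := chain hS hp hp2 O hOp a ha hidxO z hzz hz1 hzc
        have hOO := Om_card O
        have hcH : Nat.card (G ⧸ O) = (p ^ 2 - 1) * p ^ a := hidxO
        have hH := cc_H (H := G ⧸ O) hp hp2 ha hcH (z : G ⧸ O)
          (by rw [← QuotientGroup.mk_mul, hzz, QuotientGroup.mk_one])
          (by
            intro h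
            exact hzO ((QuotientGroup.eq_one_iff z).1 h))
          (by
            intro h
            induction h using QuotientGroup.induction_on with | H g => ?_
            rw [← QuotientGroup.mk_mul, ← QuotientGroup.mk_mul]
            apply QuotientGroup.eq.2
            have h3 := hzc g⁻¹
            have h4 : (g * z)⁻¹ * (z * g) = (z * (g⁻¹ * z * g⁻¹⁻¹ * z) * z⁻¹) := by
              rw [mul_inv_rev, hzi]
              calc z * g⁻¹ * (z * g) = z * (g⁻¹ * z * g) * (z * z) := by rw [hzz]; group
                _ = z * (g⁻¹ * z * g⁻¹⁻¹ * z) * z := by rw [inv_inv]; group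
            rw [h4]
            exact hOn.conj_mem _ h3 z)
          (by
            intro L hL hLb
            have h3 := card_quot_lt L hLb
            have h4 : Nat.card (G ⧸ O) ≤ Nat.card G := by
              have h5 := Subgroup.card_eq_card_quotient_mul_card_subgroup O
              have h6 : 0 < Nat.card O := Nat.card_pos
              nlinarith
            exact ih ((G ⧸ O) ⧸ L) ((hS.quot O).quot L) (by omega))
        omega
    rcases hS.min V hVbot hVmin with ⟨p, hp, hp2, hcard⟩ | ⟨hcard, h2⟩ | ⟨E, hE1, hE2, hE3⟩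
    · exact key p hp hcard (fun h => absurd h hp2)
    · exact key 2 Nat.prime_two (by rw [hcard]; norm_num) (fun _ => h2)
    · have h3 := cc_add_le V E (fun _ => 1) hE2 (by
        intro e he
        refine ⟨by simpa using (hE1 e he).1, ?_⟩
        intro e' he' hc
        rw [isConj_one_right] at hc
        exact (hE1 e' he').2 hc)
      omega

theorem main (G : Type) [Group G] [Finite G] (hS : Star G) : Om (Nat.card G) + 1 ≤ cc G :=
  main_aux (Nat.card G) G hS le_rfl

end Pool.Agent.BertramR2
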