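import Pool.Agent.BertramR2.Basic

set_option autoImplicit false

namespace Pool.Agent.BertramR2

open Subgroup

theorem card_inf_mul {G : Type} [Group G] (H K : Subgroup G) :
    Nat.card (H ⊓ K : Subgroup G) * H.relIndex K = Nat.card K := by
  have h := Subgroup.relIndex_mul_relIndex (⊥ : Subgroup G) (H ⊓ K) K bot_le inf_le_right
  rwa [Subgroup.relIndex_bot_left, Subgroup.relIndex_bot_left, Subgroup.inf_relIndex_right] at h

/-- `|K| = |K ∩ M| |K M / M|` -/
theorem card_map_mul {G : Type} [Group G] (M : Subgroup G) [M.Normal] (K : Subgroup G) :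
    Nat.card (M ⊓ K : Subgroup G) * Nat.card (K.map (QuotientGroup.mk' M)) = Nat.card K := by
  have h := Subgroup.relIndex_ker (K := K) (QuotientGroup.mk' M)
  rw [QuotientGroup.ker_mk'] at h
  rw [← h]
  exact card_inf_mul M K

/-- the number of conjugates of `v` -/
theorem card_conj {G : Type} [Group G] (v : G) :
    Nat.card {w : G // IsConj v w} = (centralizer {v}).index := by
  rw [Subgroup.index]
  symm
  let F : G ⧸ (centralizer {v} : Subgroup G) → {w : G // IsConj v w} :=
    Quotient.lift (fun g : G => (⟨g * v * g⁻¹, isConj_iff.2 ⟨g, rfl⟩⟩ : {w : G // IsConj v w})) (by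
      intro a b hab
      have h1 : a⁻¹ * b ∈ (centralizer {v} : Subgroup G) := QuotientGroup.leftRel_apply.1 hab
      rw [mem_centralizer_singleton_iff] at h1
      apply Subtype.ext
      show a * v * a⁻¹ = b * v * b⁻¹
      have h2 : b = a * (a⁻¹ * b) := by group
      have h3 : b * v = a * v * (a⁻¹ * b) := by
        calc b * v = a * ((a⁻¹ * b) * v) := by group
          _ = a * (v * (a⁻¹ * b)) := by rw [h1]
          _ = a * v * (a⁻¹ * b) := by group
      rw [h3]
      group)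
  apply Nat.card_congr
  apply Equiv.ofBijective F
  constructor
  · intro x y
    induction x using QuotientGroup.induction_on with | H a => ?_
    induction y using QuotientGroup.induction_on with | H b => ?_
    intro hxy
    have h0 : a * v * a⁻¹ = b * v * b⁻¹ := congrArg Subtype.val hxy
    apply QuotientGroup.eq.2
    rw [mem_centralizer_singleton_iff]
    calc a⁻¹ * b * v = a⁻¹ * (b * v * b⁻¹) * b := by group
      _ = a⁻¹ * (a * v * a⁻¹) * b := by rw [h0]
      _ = v * (a⁻¹ * b) := by group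
  · rintro ⟨w, hw⟩
    obtain ⟨c, hc⟩ := isConj_iff.1 hw
    refine ⟨(c : G ⧸ (centralizer {v} : Subgroup G)), ?_⟩
    apply Subtype.ext
    exact hc

theorem card_pow_dvd {p : ℕ} (hp : p.Prime) {G : Type} [Group G] [Finite G] {P M : Subgroup G}
    (hP : IsPGroup p P) (hMP : M ≤ P) : ∃ n, Nat.card M = p ^ n := by
  have : Fact p.Prime := ⟨hp⟩
  exact (IsPGroup.iff_card.1 (hP.to_le hMP))

/-- a normal `p`-subgroup centralizes a minimal normal subgroup inside it -/
theorem central_of_min {G : Type} [Group G] [Finite G] {p : ℕ} (hp : p.Prime)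
    (P M : Subgroup G) [hPn : P.Normal] [hMn : M.Normal] (hP : IsPGroup p P) (hMP : M ≤ P)
    (hM : M ≠ ⊥) (hmin : ∀ K : Subgroup G, K.Normal → K ≤ M → K = ⊥ ∨ K = M) :
    ∀ m ∈ M, ∀ g ∈ P, g * m = m * g := by
  have : Fact p.Prime := ⟨hp⟩
  have hCn : (centralizer (P : Set G)).Normal := by infer_instance
  have hK : (M ⊓ centralizer (P : Set G)).Normal := Subgroup.normal_inf_normal _ _
  rcases hmin _ hK inf_le_left with h | h
  · exfalso
    let _ : MulAction P M := MulAction.compHom M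
      ((MulAut.conjNormal (H := M)).comp P.subtype)
    have hfix : ∀ m ∈ MulAction.fixedPoints P M, m = 1 := by
      intro m hm
      have h1 : (m : G) ∈ M ⊓ centralizer (P : Set G) := by
        refine Subgroup.mem_inf.2 ⟨m.2, ?_⟩
        rw [Subgroup.mem_centralizer_iff]
        intro g hg
        have h2 := hm ⟨g, hg⟩
        have h3 : g * (m : G) * g⁻¹ = m := by
          have h4 := congrArg (Subtype.val) h2
          rw [← h4]
          conv_lhs => rw [h4]
          rfl
        calc g * (m : G) = g * m * g⁻¹ * g := by group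
          _ = m * g := by rw [h3]
      rw [h, Subgroup.mem_bot] at h1
      exact Subtype.ext h1
    have hmod := hP.card_modEq_card_fixedPoints (α := M)
    have hcard1 : Nat.card (MulAction.fixedPoints P M) ≤ 1 := by
      have : Subsingleton (MulAction.fixedPoints P M) := by
        constructor
        intro a b
        apply Subtype.ext
        rw [hfix a.1 a.2, hfix b.1 b.2]
      exact Finite.card_le_one_iff_subsingleton.2 this
    obtain ⟨n, hn⟩ := card_pow_dvd hp hP hMP
    have hn0 : n ≠ 0 := by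
      intro h0
      rw [h0, pow_zero, Subgroup.card_eq_one] at hn
      exact hM hn
    have hdvd : p ∣ Nat.card M := by
      rw [hn]
      exact dvd_pow_self p hn0
    have h5 : p ∣ Nat.card (MulAction.fixedPoints P M) := by
      rw [← Nat.modEq_zero_iff_dvd]
      exact hmod.symm.trans ((Nat.modEq_zero_iff_dvd).2 hdvd)
    have h6 : 0 < Nat.card (MulAction.fixedPoints P M) := by
      have h7 : (1 : M) ∈ MulAction.fixedPoints P M := by
        intro g
        exact map_one ((MulAut.conjNormal (H := M)).comp P.subtype g)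
      have : Nonempty (MulAction.fixedPoints P M) := ⟨⟨1, h7⟩⟩
      exact Nat.card_pos
    have h8 := Nat.le_of_dvd h6 h5
    have h9 := hp.two_le
    omega
  · intro m hm g hg
    have h1 : m ∈ M ⊓ centralizer (P : Set G) := by rw [h]; exact hm
    exact Subgroup.mem_centralizer_iff.1 h1.2 g hg

theorem exists_y {G : Type} [Group G] [Finite G] {p : ℕ} (hp : p.Prime) (P : Subgroup G)
    (hidx : P.index = p ^ 2 - 1) (v : G) (hPv : P ≤ centralizer {v})
    (hlt : (centralizer {v}).index < p ^ 2 - 1) :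
    ∃ r y, r.Prime ∧ r ≠ p ∧ orderOf y = r ∧ y * v = v * y := by
  have h1 := Subgroup.relIndex_mul_index hPv
  have h2 : P.relIndex (centralizer {v}) ≠ 1 := by
    intro h
    rw [h, one_mul] at h1
    omega
  obtain ⟨r, hr, hrd⟩ := Nat.exists_prime_and_dvd h2
  have h3 : r ∣ p ^ 2 - 1 := by
    rw [← hidx, ← h1]
    exact Dvd.dvd.mul_right hrd _
  have hrp : r ≠ p := by
    rintro rfl
    have h4 : r ∣ r ^ 2 := dvd_pow_self r (by norm_num)
    have h5 : r ∣ r ^ 2 - (r ^ 2 - 1) := Nat.dvd_sub h4 h3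
    have h6 : 0 < r ^ 2 := pow_pos hr.pos 2
    have h7 : r ^ 2 - (r ^ 2 - 1) = 1 := by omega
    rw [h7] at h5
    exact hr.one_lt.ne' (Nat.dvd_one.1 h5)
  have : Fact r.Prime := ⟨hr⟩
  have h4 : r ∣ Nat.card (centralizer {v} : Subgroup G) :=
    hrd.trans (Subgroup.relIndex_dvd_card _ _)
  obtain ⟨y, hy⟩ := exists_prime_orderOf_dvd_card' r h4
  refine ⟨r, y, hr, hrp, ?_, ?_⟩
  · rw [← hy]
    exact Subgroup.orderOf_coe y
  · have := y.2
    rw [mem_centralizer_singleton_iff] at this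
    exact this

/-- fixed points of the involution `h ↦ z h z` in a coset -/
theorem fix_in_coset {G : Type} [Group G] [Finite G] (A : Subgroup G) (hodd : Odd (Nat.card A))
    (z g : G) (hz : z * z = 1) (h : ∀ y ∈ A, g⁻¹ * (z * (g * y) * z) ∈ A) :
    ∃ y ∈ A, z * (g * y) * z = g * y := by
  obtain ⟨y, hy⟩ := exists_fixed hodd
    (fun y : A => (⟨g⁻¹ * (z * (g * y) * z), h y.1 y.2⟩ : A)) (by
      intro y
      apply Subtype.ext
      show g⁻¹ * (z * (g * (g⁻¹ * (z * (g * (y : G)) * z))) * z) = y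
      calc g⁻¹ * (z * (g * (g⁻¹ * (z * (g * (y : G)) * z))) * z)
          = g⁻¹ * ((z * z) * (g * y) * (z * z)) := by group
        _ = y := by rw [hz]; group)
  refine ⟨y.1, y.2, ?_⟩
  have h1 : g⁻¹ * (z * (g * (y : G)) * z) = y := congrArg Subtype.val hy
  calc z * (g * (y : G)) * z = g * (g⁻¹ * (z * (g * (y : G)) * z)) := by group
    _ = g * y := by rw [h1]

/-- inverted elements in a coset -/
theorem inv_in_coset {G : Type} [Group G] [Finite G] (A : Subgroup G) (hodd : Odd (Nat.card A))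
    (z g : G) (hz : z * z = 1) (h : ∀ y ∈ A, g⁻¹ * (z * (g * y)⁻¹ * z) ∈ A) :
    ∃ y ∈ A, z * (g * y)⁻¹ * z = g * y := by
  obtain ⟨y, hy⟩ := exists_fixed hodd
    (fun y : A => (⟨g⁻¹ * (z * (g * y)⁻¹ * z), h y.1 y.2⟩ : A)) (by
      intro y
      apply Subtype.ext
      show g⁻¹ * (z * (g * (g⁻¹ * (z * (g * (y : G))⁻¹ * z)))⁻¹ * z) = y
      have hzi : z⁻¹ = z := inv_eq_of_mul_eq_one_left hz
      calc g⁻¹ * (z * (g * (g⁻¹ * (z * (g * (y : G))⁻¹ * z)))⁻¹ * z)
          = g⁻¹ * ((z * z⁻¹) * (g * y) * (z⁻¹ * z)) := by group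
        _ = y := by group)
  refine ⟨y.1, y.2, ?_⟩
  have h1 : g⁻¹ * (z * (g * (y : G))⁻¹ * z) = y := congrArg Subtype.val hy
  calc z * (g * (y : G))⁻¹ * z = g * (g⁻¹ * (z * (g * (y : G))⁻¹ * z)) := by group
    _ = g * y := by rw [h1]

/-- `c ↦ x⁻¹ (c x c⁻¹)` identifies `K / C_K(x)` with a subset of `M` -/
theorem relIndex_eq {G : Type} [Group G] [Finite G] (K M : Subgroup G) (x : G)
    (h1 : ∀ c ∈ K, x⁻¹ * (c * x * c⁻¹) ∈ M) :
    ((centralizer {x}).relIndex K = Nat.card
      (Set.range (fun c : K => (⟨x⁻¹ * (c * x * c⁻¹), h1 c.1 c.2⟩ : M)))) := by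
  rw [Subgroup.relIndex, Subgroup.index]
  set φ : K → M := fun c : K => (⟨x⁻¹ * (c * x * (c : G)⁻¹), h1 c.1 c.2⟩ : M) with hφ
  let F : K ⧸ ((centralizer {x} : Subgroup G).subgroupOf K) → Set.range φ :=
    Quotient.lift (fun c : K => (⟨φ c, ⟨c, rfl⟩⟩ : Set.range φ)) (by
      intro a b hab
      have h1 : a⁻¹ * b ∈ (centralizer {x} : Subgroup G).subgroupOf K :=
        QuotientGroup.leftRel_apply.1 hab
      rw [Subgroup.mem_subgroupOf, mem_centralizer_singleton_iff] at h1
      apply Subtype.ext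
      apply Subtype.ext
      show x⁻¹ * ((a : G) * x * (a : G)⁻¹) = x⁻¹ * ((b : G) * x * (b : G)⁻¹)
      have h1' : (a : G)⁻¹ * b * x = x * ((a : G)⁻¹ * b) := h1
      have h3 : (b : G) * x = a * x * ((a : G)⁻¹ * b) := by
        calc (b : G) * x = a * (((a : G)⁻¹ * b) * x) := by group
          _ = a * (x * ((a : G)⁻¹ * b)) := by rw [h1']
          _ = a * x * ((a : G)⁻¹ * b) := by group
      rw [h3]
      group)
  apply Nat.card_congr
  apply Equiv.ofBijective F
  constructor
  · intro c d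
    induction c using QuotientGroup.induction_on with | H a => ?_
    induction d using QuotientGroup.induction_on with | H b => ?_
    intro hxy
    have h0 : x⁻¹ * ((a : G) * x * (a : G)⁻¹) = x⁻¹ * ((b : G) * x * (b : G)⁻¹) :=
      congrArg (fun t : Set.range φ => ((t : M) : G)) hxy
    have h0' : (a : G) * x * (a : G)⁻¹ = (b : G) * x * (b : G)⁻¹ := mul_left_cancel h0
    apply QuotientGroup.eq.2
    rw [Subgroup.mem_subgroupOf, mem_centralizer_singleton_iff]
    show (a : G)⁻¹ * b * x = x * ((a : G)⁻¹ * b)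
    calc (a : G)⁻¹ * b * x = (a : G)⁻¹ * (b * x * (b : G)⁻¹) * b := by group
      _ = (a : G)⁻¹ * (a * x * (a : G)⁻¹) * b := by rw [h0']
      _ = x * ((a : G)⁻¹ * b) := by group
  · rintro ⟨w, c, rfl⟩
    exact ⟨(c : K ⧸ ((centralizer {x} : Subgroup G).subgroupOf K)), rfl⟩

theorem relIndex_eq_of_surj {G : Type} [Group G] [Finite G] (K M : Subgroup G) (x : G)
    (h1 : ∀ c ∈ K, x⁻¹ * (c * x * c⁻¹) ∈ M) (h2 : ∀ m ∈ M, ∃ c ∈ K, c * x * c⁻¹ = x * m) :
    (centralizer {x}).relIndex K = Nat.card M := by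
  rw [relIndex_eq K M x h1]
  have h3 : Set.range (fun c : K => (⟨x⁻¹ * (c * x * c⁻¹), h1 c.1 c.2⟩ : M)) = Set.univ := by
    rw [Set.eq_univ_iff_forall]
    rintro ⟨m, hm⟩
    obtain ⟨c, hc, hcm⟩ := h2 m hm
    refine ⟨⟨c, hc⟩, Subtype.ext ?_⟩
    show x⁻¹ * (c * x * c⁻¹) = m
    rw [hcm]
    group
  rw [h3]
  exact Nat.card_congr (Equiv.Set.univ M)

theorem surj_of_le {G : Type} [Group G] [Finite G] (K M : Subgroup G) (x : G)
    (h1 : ∀ c ∈ K, x⁻¹ * (c * x * c⁻¹) ∈ M)
    (hle : Nat.card M ≤ (centralizer {x}).relIndex K) :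
    ∀ m ∈ M, ∃ c ∈ K, c * x * c⁻¹ = x * m := by
  rw [relIndex_eq K M x h1] at hle
  set S := Set.range (fun c : K => (⟨x⁻¹ * (c * x * c⁻¹), h1 c.1 c.2⟩ : M)) with hS
  have h3 : S = Set.univ := by
    apply Set.eq_of_subset_of_ncard_le (Set.subset_univ S)
    rw [Set.ncard_univ, ← Nat.card_coe_set_eq S]
    exact hle
  intro m hm
  have h4 : (⟨m, hm⟩ : M) ∈ S := by rw [h3]; trivial
  obtain ⟨c, hc⟩ := h4
  refine ⟨c.1, c.2, ?_⟩
  have h5 : x⁻¹ * ((c : G) * x * (c : G)⁻¹) = m := congrArg Subtype.val hc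
  rw [← h5]
  group

end Pool.Agent.BertramR2
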